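import Mathlib
import Pool.Agent.Helper378.PD.A1

set_option autoImplicit false

namespace Pool.Agent.H719Z.FKW

/-- bounded real functions -/
def Bd {A : Type} (f : A → ℝ) : Prop := ∃ C : ℝ, ∀ x, |f x| ≤ C

theorem Bd.const {A : Type} (c : ℝ) : Bd (fun _ : A => c) := ⟨|c|, fun _ => le_rfl⟩

theorem Bd.add {A : Type} {f g : A → ℝ} (hf : Bd f) (hg : Bd g) : Bd (fun x => f x + g x) := by
  obtain ⟨C, hC⟩ := hf
  obtain ⟨D, hD⟩ := hg
  exact ⟨C + D, fun x => (abs_add_le _ _).trans (add_le_add (hC x) (hD x))⟩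

theorem Bd.mul {A : Type} {f g : A → ℝ} (hf : Bd f) (hg : Bd g) : Bd (fun x => f x * g x) := by
  obtain ⟨C, hC⟩ := hf
  obtain ⟨D, hD⟩ := hg
  refine ⟨C * D, fun x => ?_⟩
  rw [abs_mul]
  exact mul_le_mul (hC x) (hD x) (abs_nonneg _) ((abs_nonneg _).trans (hC x))

theorem Bd.cmul {A : Type} {f : A → ℝ} (c : ℝ) (hf : Bd f) : Bd (fun x => c * f x) :=
  (Bd.const c).mul hf

theorem Bd.sub {A : Type} {f g : A → ℝ} (hf : Bd f) (hg : Bd g) : Bd (fun x => f x - g x) := by
  have := hf.add (hg.cmul (-1))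
  simpa [sub_eq_add_neg] using this

theorem Bd.sum {A ι : Type} (s : Finset ι) {f : ι → A → ℝ} (hf : ∀ i, Bd (f i)) :
    Bd (fun x => ∑ i ∈ s, f i x) := by
  classical
  induction s using Finset.induction_on with
  | empty => simpa using Bd.const (A := A) 0
  | insert i s hi ih =>
    simp only [Finset.sum_insert hi]
    exact (hf i).add ih

theorem Bd.comp {A B : Type} {f : A → ℝ} (hf : Bd f) (φ : B → A) : Bd (fun x => f (φ x)) := by
  obtain ⟨C, hC⟩ := hf
  exact ⟨C, fun x => hC _⟩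

theorem Bd.of_le {A : Type} {f : A → ℝ} (C : ℝ) (h : ∀ x, |f x| ≤ C) : Bd f := ⟨C, h⟩

/-- a mean: a positive normalised functional, linear on bounded functions -/
structure Mean (A : Type) where
  M : (A → ℝ) → ℝ
  add : ∀ f g : A → ℝ, Bd f → Bd g → M (fun x => f x + g x) = M f + M g
  smul : ∀ (c : ℝ) (f : A → ℝ), Bd f → M (fun x => c * f x) = c * M f
  nonneg : ∀ f : A → ℝ, Bd f → (∀ x, 0 ≤ f x) → 0 ≤ M f
  one : M (fun _ => 1) = 1

namespace Mean
variable {A : Type} (m : Mean A)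

theorem const (c : ℝ) : m.M (fun _ => c) = c := by
  have := m.smul c (fun _ => 1) (Bd.const 1)
  simpa [m.one] using this

theorem sub {f g : A → ℝ} (hf : Bd f) (hg : Bd g) :
    m.M (fun x => f x - g x) = m.M f - m.M g := by
  have h1 := m.add f (fun x => (-1) * g x) hf (hg.cmul _)
  rw [m.smul (-1) g hg] at h1
  have e : (fun x => f x - g x) = fun x => f x + (-1) * g x := by
    funext x; ring
  rw [e, h1]; ring

theorem mono {f g : A → ℝ} (hf : Bd f) (hg : Bd g) (h : ∀ x, f x ≤ g x) : m.M f ≤ m.M g := by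
  have h1 := m.nonneg _ (hg.sub hf) (fun x => sub_nonneg.2 (h x))
  rw [m.sub hg hf] at h1
  linarith

theorem le_const {f : A → ℝ} (hf : Bd f) {c : ℝ} (h : ∀ x, f x ≤ c) : m.M f ≤ c := by
  have := m.mono hf (Bd.const c) h
  rwa [m.const] at this

theorem const_le {f : A → ℝ} (hf : Bd f) {c : ℝ} (h : ∀ x, c ≤ f x) : c ≤ m.M f := by
  have := m.mono (Bd.const c) hf h
  rwa [m.const] at this

theorem abs_le {f : A → ℝ} {c : ℝ} (h : ∀ x, |f x| ≤ c) : |m.M f| ≤ c :=
  _root_.abs_le.2 ⟨m.const_le ⟨c, h⟩ fun x => (_root_.abs_le.1 (h x)).1,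
    m.le_const ⟨c, h⟩ fun x => (_root_.abs_le.1 (h x)).2⟩

theorem sum {ι : Type} (s : Finset ι) {f : ι → A → ℝ} (hf : ∀ i, Bd (f i)) :
    m.M (fun x => ∑ i ∈ s, f i x) = ∑ i ∈ s, m.M (f i) := by
  classical
  induction s using Finset.induction_on with
  | empty => simpa using m.const 0
  | insert i s hi ih =>
    simp only [Finset.sum_insert hi]
    rw [m.add _ _ (hf i) (Bd.sum s hf), ih]

theorem sq_le {f : A → ℝ} (hf : Bd f) : (m.M f) ^ 2 ≤ m.M (fun x => f x ^ 2) := by
  have hf2 : Bd (fun x => f x ^ 2) := by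
    simpa [sq] using hf.mul hf
  set c := m.M f with hc
  have h1 := m.nonneg (fun x => (f x ^ 2 + (-2 * c) * f x) + c ^ 2)
    ((hf2.add (hf.cmul _)).add (Bd.const _)) (fun x => by nlinarith [sq_nonneg (f x - c)])
  rw [m.add _ _ (hf2.add (hf.cmul _)) (Bd.const _), m.add _ _ hf2 (hf.cmul _), m.smul _ _ hf,
    m.const] at h1
  nlinarith

theorem exists_le {f : A → ℝ} (hf : Bd f) {ε : ℝ} (hε : 0 < ε) : ∃ x, f x ≤ m.M f + ε := by
  by_contra h
  push Not at h
  have := m.const_le hf (c := m.M f + ε) fun x => (h x).le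
  linarith

/-- the mean of a double average whose off-diagonal terms have small mean -/
theorem dbl {n : ℕ} (hn : 0 < n) (Φ : Fin n → Fin n → A → ℝ) (hΦ : ∀ i j x, |Φ i j x| ≤ 1)
    {ε : ℝ} (hε : 0 ≤ ε) (h : ∀ i j, i ≠ j → m.M (Φ i j) ≤ ε) :
    m.M (fun x => (1 / (n : ℝ) ^ 2) * ∑ i, ∑ j, Φ i j x) ≤ 1 / n + ε := by
  have hb : ∀ i j, Bd (Φ i j) := fun i j => ⟨1, hΦ i j⟩
  have hn' : (0 : ℝ) < n := by exact_mod_cast hn
  rw [m.smul _ _ (Bd.sum _ fun i => Bd.sum _ fun j => hb i j),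
    m.sum _ (fun i => Bd.sum _ fun j => hb i j)]
  have h1 : ∀ i, m.M (fun x => ∑ j, Φ i j x) ≤ 1 + n * ε := by
    intro i
    rw [m.sum _ (fun j => hb i j)]
    have h2 : ∀ j, m.M (Φ i j) ≤ (if i = j then 1 else 0) + ε := by
      intro j
      split_ifs with hij
      · have := m.le_const (hb i j) (c := 1) fun x => (_root_.abs_le.1 (hΦ i j x)).2
        linarith
      · have := h i j hij
        linarith
    calc ∑ j, m.M (Φ i j) ≤ ∑ j, ((if i = j then (1 : ℝ) else 0) + ε) :=
          Finset.sum_le_sum fun j _ => h2 j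
      _ = 1 + n * ε := by
          rw [Finset.sum_add_distrib]
          simp
  have h3 : ∑ i, m.M (fun x => ∑ j, Φ i j x) ≤ n * (1 + n * ε) := by
    calc ∑ i, m.M (fun x => ∑ j, Φ i j x) ≤ ∑ _i : Fin n, (1 + n * ε) :=
          Finset.sum_le_sum fun i _ => h1 i
      _ = n * (1 + n * ε) := by simp; ring
  calc 1 / (n : ℝ) ^ 2 * ∑ i, m.M (fun x => ∑ j, Φ i j x)
      ≤ 1 / (n : ℝ) ^ 2 * (n * (1 + n * ε)) := by
        apply mul_le_mul_of_nonneg_left h3
        positivity
    _ = 1 / n + ε := by field_simp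

end Mean

/-- invariant means exist on additive commutative groups -/
theorem exists_inv_mean (A : Type) [AddCommGroup A] :
    ∃ m : Mean A, ∀ (f : A → ℝ) (a : A), Bd f → m.M (fun x => f (x + a)) = m.M f := by
  obtain ⟨M, h1, h2, h3, h4, h5⟩ := Pool.Agent.Helper378.PD.exists_mean (Multiplicative A)
  refine ⟨⟨fun f => M (fun x => f x.toAdd), ?_, ?_, ?_, h4⟩, ?_⟩
  · rintro f g ⟨C, hC⟩ ⟨D, hD⟩
    exact h1 (fun x => f x.toAdd) (fun x => g x.toAdd) (max C D)
      (fun x => (hC _).trans (le_max_left _ _)) (fun x => (hD _).trans (le_max_right _ _))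
  · rintro c f ⟨C, hC⟩
    exact h2 (fun x => f x.toAdd) C c (fun x => hC _)
  · rintro f ⟨C, hC⟩ hf
    exact h3 (fun x => f x.toAdd) C (fun x => hC _) (fun x => hf _)
  · rintro f a ⟨C, hC⟩
    have := h5 (fun x => f x.toAdd) C (Multiplicative.ofAdd a) (fun x => hC _)
    simp only [toAdd_mul, toAdd_ofAdd] at this
    simpa [add_comm] using this

/-- a mean living on the unit interval that is almost invariant under small translations -/
theorem exists_local_mean :
    ∃ m : Mean ℝ, (∀ f g : ℝ → ℝ, (∀ x, 0 ≤ x → x < 1 → f x = g x) → m.M f = m.M g) ∧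
      ∀ (f : ℝ → ℝ) (h : ℝ), (∀ x, |f x| ≤ 1) →
        |m.M (fun x => f (x + h)) - m.M f| ≤ 2 * |h| := by
  obtain ⟨M, hM⟩ := exists_inv_mean ℝ
  let m : Mean ℝ :=
    ⟨fun f => M.M (fun x => f (Int.fract x)),
      fun f g hf hg => M.add _ _ (hf.comp _) (hg.comp _),
      fun c f hf => M.smul _ _ (hf.comp _),
      fun f hf h => M.nonneg _ (hf.comp _) (fun x => h _), M.one⟩
  have hfr : Bd (fun x : ℝ => Int.fract x) :=
    ⟨1, fun x => by rw [abs_of_nonneg (Int.fract_nonneg x)]; exact (Int.fract_lt_one x).le⟩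
  have key : ∀ (f : ℝ → ℝ) (h : ℝ), 0 ≤ h → (∀ x, |f x| ≤ 1) →
      |m.M (fun x => f (x + h)) - m.M f| ≤ 2 * h := by
    intro f h hh hf
    have hb : Bd f := ⟨1, hf⟩
    have e1 : m.M f = M.M (fun x => f (Int.fract (x + h))) :=
      (hM (fun x => f (Int.fract x)) h (hb.comp _)).symm
    have e2 : m.M (fun x => f (x + h)) = M.M (fun x => f (Int.fract x + h)) := rfl
    have e3 : M.M (fun x => 2 * ((Int.fract x + h) - Int.fract (x + h))) = 2 * h := by
      rw [M.smul _ _ ((hfr.add (Bd.const h)).sub (hfr.comp _)),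
        M.sub (hfr.add (Bd.const h)) (hfr.comp _), M.add _ _ hfr (Bd.const h), M.const,
        hM (fun x => Int.fract x) h hfr]
      ring
    have hpt : ∀ x : ℝ, |f (Int.fract x + h) - f (Int.fract (x + h))| ≤
        2 * ((Int.fract x + h) - Int.fract (x + h)) := by
      intro x
      have h1 : (Int.fract x + h) - Int.fract (x + h) = ((⌊x + h⌋ - ⌊x⌋ : ℤ) : ℝ) := by
        unfold Int.fract
        push_cast
        ring
      have h2 : ⌊x⌋ ≤ ⌊x + h⌋ := Int.floor_mono (by linarith)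
      rcases eq_or_lt_of_le h2 with h3 | h3
      · have h4 : Int.fract x + h = Int.fract (x + h) := by
          rw [← h3, sub_self] at h1
          push_cast at h1
          linarith
        rw [h4]
        simp
      · have h4 : (1 : ℝ) ≤ ((⌊x + h⌋ - ⌊x⌋ : ℤ) : ℝ) := by
          have : (1 : ℤ) ≤ ⌊x + h⌋ - ⌊x⌋ := by omega
          exact_mod_cast this
        rw [h1]
        have h5 := abs_sub (f (Int.fract x + h)) (f (Int.fract (x + h)))
        linarith [hf (Int.fract x + h), hf (Int.fract (x + h))]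
    have hb2 : Bd (fun x : ℝ => 2 * ((Int.fract x + h) - Int.fract (x + h))) :=
      ((hfr.add (Bd.const h)).sub (hfr.comp _)).cmul _
    rw [e1, e2, ← M.sub (hb.comp _) (hb.comp _), abs_le]
    constructor
    · have := M.mono (hb2.cmul (-1)) ((hb.comp (fun x => Int.fract x + h)).sub
        (hb.comp (fun x => Int.fract (x + h)))) (fun x => by
          have := (abs_le.1 (hpt x)).1
          linarith)
      rw [M.smul _ _ hb2, e3] at this
      linarith
    · have := M.mono ((hb.comp (fun x => Int.fract x + h)).sub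
        (hb.comp (fun x => Int.fract (x + h)))) hb2 (fun x => (abs_le.1 (hpt x)).2)
      rwa [e3] at this
  refine ⟨m, ?_, ?_⟩
  · intro f g h
    show M.M (fun x => f (Int.fract x)) = M.M (fun x => g (Int.fract x))
    congr 1
    funext x
    exact h _ (Int.fract_nonneg x) (Int.fract_lt_one x)
  · intro f h hf
    rcases le_total 0 h with hh | hh
    · rw [abs_of_nonneg hh]
      exact key f h hh hf
    · have := key (fun x => f (x + h)) (-h) (by linarith) (fun x => hf _)
      simp only [neg_add_cancel_right] at this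
      rw [abs_of_nonpos hh, abs_sub_comm]
      exact this

end Pool.Agent.H719Z.FKW
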