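import Mathlib
import Pool.Agent.H719Z.FKW.Mean

set_option autoImplicit false

namespace Pool.Agent.H719Z.FKW

/-- radial positive semidefinite functions on the plane, bounded by one -/
structure RPD (g : ℂ → ℝ) : Prop where
  rad : ∀ v w : ℂ, ‖v‖ = ‖w‖ → g v = g w
  psd : ∀ (ι : Type) [Fintype ι] (x : ι → ℂ) (c : ι → ℝ), 0 ≤ ∑ i, ∑ j, c i * c j * g (x i - x j)
  bd : ∀ v, |g v| ≤ 1

/-- the cross term of two weighted families -/
noncomputable def E (g : ℂ → ℝ) {ι κ : Type} [Fintype ι] [Fintype κ] (x : ι → ℂ) (c : ι → ℝ)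
    (y : κ → ℂ) (d : κ → ℝ) : ℝ := ∑ i, ∑ j, c i * d j * g (x i - y j)

section
variable {g : ℂ → ℝ} (hg : RPD g)
include hg

theorem RPD.neg (v : ℂ) : g (-v) = g v := hg.rad _ _ (norm_neg v)

theorem RPD.E_symm {ι κ : Type} [Fintype ι] [Fintype κ] (x : ι → ℂ) (c : ι → ℝ)
    (y : κ → ℂ) (d : κ → ℝ) : E g x c y d = E g y d x c := by
  unfold E
  rw [Finset.sum_comm]
  refine Finset.sum_congr rfl fun j _ => Finset.sum_congr rfl fun i _ => ?_
  rw [← hg.neg (y j - x i), neg_sub, mul_comm (c i)]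

theorem RPD.quad {ι κ : Type} [Fintype ι] [Fintype κ] (x : ι → ℂ) (c : ι → ℝ)
    (y : κ → ℂ) (d : κ → ℝ) (s t : ℝ) :
    0 ≤ s ^ 2 * E g x c x c + 2 * s * t * E g x c y d + t ^ 2 * E g y d y d := by
  have h := hg.psd (ι ⊕ κ) (Sum.elim x y) (Sum.elim (fun i => s * c i) (fun j => t * d j))
  simp only [Fintype.sum_sum_type, Sum.elim_inl, Sum.elim_inr, Finset.sum_add_distrib] at h
  have e1 : ∑ i, ∑ j, s * c i * (s * c j) * g (x i - x j) = s ^ 2 * E g x c x c := by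
    unfold E
    simp only [Finset.mul_sum]
    refine Finset.sum_congr rfl fun i _ => Finset.sum_congr rfl fun j _ => by ring
  have e2 : ∑ i, ∑ j, s * c i * (t * d j) * g (x i - y j) = s * t * E g x c y d := by
    unfold E
    simp only [Finset.mul_sum]
    refine Finset.sum_congr rfl fun i _ => Finset.sum_congr rfl fun j _ => by ring
  have e3 : ∑ i, ∑ j, t * d i * (s * c j) * g (y i - x j) = s * t * E g x c y d := by
    rw [hg.E_symm]
    unfold E
    simp only [Finset.mul_sum]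
    refine Finset.sum_congr rfl fun i _ => Finset.sum_congr rfl fun j _ => by ring
  have e4 : ∑ i, ∑ j, t * d i * (t * d j) * g (y i - y j) = t ^ 2 * E g y d y d := by
    unfold E
    simp only [Finset.mul_sum]
    refine Finset.sum_congr rfl fun i _ => Finset.sum_congr rfl fun j _ => by ring
  rw [e1, e2, e3, e4] at h
  linarith

theorem RPD.cs {ι κ : Type} [Fintype ι] [Fintype κ] (x : ι → ℂ) (c : ι → ℝ)
    (y : κ → ℂ) (d : κ → ℝ) : (E g x c y d) ^ 2 ≤ E g x c x c * E g y d y d := by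
  have h := discrim_le_zero (a := E g x c x c) (b := 2 * E g x c y d) (c := E g y d y d)
    (fun s => by
      have := hg.quad x c y d s 1
      nlinarith)
  unfold discrim at h
  nlinarith

theorem RPD.E_nonneg {ι : Type} [Fintype ι] (x : ι → ℂ) (c : ι → ℝ) : 0 ≤ E g x c x c :=
  hg.psd ι x c

theorem RPD.E_le_one {ι κ : Type} [Fintype ι] [Fintype κ] (x : ι → ℂ) (c : ι → ℝ)
    (y : κ → ℂ) (d : κ → ℝ) (hc : ∀ i, 0 ≤ c i) (hc1 : ∑ i, c i = 1) (hd : ∀ i, 0 ≤ d i)
    (hd1 : ∑ i, d i = 1) : E g x c y d ≤ 1 := by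
  unfold E
  calc ∑ i, ∑ j, c i * d j * g (x i - y j) ≤ ∑ i, ∑ j, c i * d j := by
        refine Finset.sum_le_sum fun i _ => Finset.sum_le_sum fun j _ => ?_
        have h1 := (abs_le.1 (hg.bd (x i - y j))).2
        have h2 := mul_nonneg (hc i) (hd j)
        nlinarith
    _ = 1 := by rw [← Finset.sum_mul_sum, hc1, hd1, mul_one]

/-- Cauchy-Schwarz against the base point -/
theorem RPD.cs0 {ι : Type} [Fintype ι] (x : ι → ℂ) (c : ι → ℝ) :
    (∑ i, c i * g (x i)) ^ 2 ≤ ∑ i, ∑ j, c i * c j * g (x i - x j) := by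
  have h := hg.cs x c (fun _ : Unit => (0 : ℂ)) (fun _ => 1)
  have h1 : E g x c (fun _ : Unit => (0 : ℂ)) (fun _ => 1) = ∑ i, c i * g (x i) := by
    unfold E
    simp
  have h2 : E g (fun _ : Unit => (0 : ℂ)) (fun _ => 1) (fun _ : Unit => (0 : ℂ)) (fun _ => 1)
      ≤ 1 := hg.E_le_one _ _ _ _ (fun _ => zero_le_one) (by simp) (fun _ => zero_le_one) (by simp)
  have h3 := hg.E_nonneg x c
  rw [h1] at h
  have h4 : E g x c x c = ∑ i, ∑ j, c i * c j * g (x i - x j) := rfl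
  nlinarith

/-- a difference of two nearly equal families has small pairing -/
theorem RPD.near {ι κ : Type} [Fintype ι] [Fintype κ] (x x' : ι → ℂ) (c : ι → ℝ)
    (y : κ → ℂ) (d : κ → ℝ) {η : ℝ} (hη : 0 ≤ η) (hy : E g y d y d ≤ 1)
    (h : E g x c x c + E g x' c x' c - 2 * E g x c x' c ≤ η ^ 2) :
    |E g x c y d - E g x' c y d| ≤ η := by
  have h1 := hg.cs (Sum.elim x x') (Sum.elim c (fun i => -c i)) y d
  have e1 : E g (Sum.elim x x') (Sum.elim c (fun i => -c i)) y d = E g x c y d - E g x' c y d := by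
    unfold E
    simp only [Fintype.sum_sum_type, Sum.elim_inl, Sum.elim_inr, neg_mul, Finset.sum_neg_distrib]
    ring
  have e2 : E g (Sum.elim x x') (Sum.elim c (fun i => -c i)) (Sum.elim x x')
      (Sum.elim c (fun i => -c i)) = E g x c x c + E g x' c x' c - 2 * E g x c x' c := by
    have := hg.E_symm x' c x c
    unfold E at this ⊢
    simp only [Fintype.sum_sum_type, Sum.elim_inl, Sum.elim_inr, neg_mul, mul_neg,
      Finset.sum_neg_distrib, Finset.sum_add_distrib]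
    rw [this]
    ring
  have h2 := hg.E_nonneg (Sum.elim x x') (Sum.elim c (fun i => -c i))
  have h3 := hg.E_nonneg y d
  rw [e1, e2] at h1
  rw [e2] at h2
  apply abs_le_of_sq_le_sq' _ hη |> abs_le.2
  nlinarith

end

theorem exists_dirs : ∃ u : ℕ → ℂ, (∀ j, ‖u j‖ = 1) ∧
    ∀ j l, j ≠ l → ∀ s : ℂ, ∃ α β : ℝ, s = α * u j - β * u l := by
  have hne : ∀ j : ℕ, ‖(1 : ℂ) + j * Complex.I‖ ≠ 0 := by
    intro j h
    have := congrArg Complex.re (norm_eq_zero.1 h)
    simp at this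
  refine ⟨fun j => (1 + j * Complex.I) / (‖(1 : ℂ) + j * Complex.I‖ : ℝ), ?_, ?_⟩
  · intro j
    rw [norm_div, Complex.norm_real, norm_norm, div_self (hne j)]
  · intro j l hjl s
    have h1 : ((j : ℝ) - l) ≠ 0 := sub_ne_zero.2 (by exact_mod_cast hjl)
    refine ⟨(s.im - l * s.re) / (j - l) * ‖(1 : ℂ) + j * Complex.I‖,
      (s.im - j * s.re) / (j - l) * ‖(1 : ℂ) + l * Complex.I‖, ?_⟩
    have h2 : ((‖(1 : ℂ) + j * Complex.I‖ : ℝ) : ℂ) ≠ 0 := by exact_mod_cast hne j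
    have h3 : ((‖(1 : ℂ) + l * Complex.I‖ : ℝ) : ℂ) ≠ 0 := by exact_mod_cast hne l
    have h4 : ((j : ℂ) - l) ≠ 0 := by exact_mod_cast h1
    have hs : s = s.re + s.im * Complex.I := (Complex.re_add_im s).symm
    push_cast
    field_simp
    rw [hs]
    simp only [Complex.add_re, Complex.ofReal_re, Complex.mul_re, Complex.I_re, mul_zero,
      Complex.ofReal_im, Complex.I_im, mul_one, sub_self, add_zero, Complex.add_im,
      Complex.mul_im, zero_add]
    ring

/-- if the planar mean vanishes then some average along the real line is small -/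
theorem line_small {g : ℂ → ℝ} (hg : RPD g) (N : Mean ℂ)
    (hN : ∀ (f : ℂ → ℝ) (a : ℂ), Bd f → N.M (fun x => f (x + a)) = N.M f) (h0 : N.M g ≤ 0)
    {ε : ℝ} (hε : 0 < ε) : ∃ (ι : Type) (_ : Fintype ι) (t w : ι → ℝ), (∀ i, 0 ≤ w i) ∧
      ∑ i, w i = 1 ∧ ∑ i, ∑ j, w i * w j * g ((t i - t j : ℝ) : ℂ) ≤ ε := by
  by_contra hcon
  push Not at hcon
  set Λ : Set ℝ := {e | ∃ (ι : Type) (_ : Fintype ι) (t w : ι → ℝ), (∀ i, 0 ≤ w i) ∧
      ∑ i, w i = 1 ∧ e = ∑ i, ∑ j, w i * w j * g ((t i - t j : ℝ) : ℂ)} with hΛ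
  have hne : Λ.Nonempty := ⟨_, Unit, inferInstance, fun _ => 0, fun _ => 1,
    fun _ => zero_le_one, by simp, rfl⟩
  have hlb : ∀ e ∈ Λ, ε ≤ e := by
    rintro e ⟨ι, _, t, w, h1, h2, rfl⟩
    exact (hcon ι _ t w h1 h2).le
  have hbdd : BddBelow Λ := ⟨ε, hlb⟩
  set lam := sInf Λ with hlam
  have hlam1 : ε ≤ lam := le_csInf hne hlb
  obtain ⟨n, hn⟩ := exists_nat_gt (2 / ε ^ 2)
  have hn0 : (0 : ℝ) < n := lt_trans (by positivity) hn
  set η : ℝ := ε ^ 2 / 8 with hη
  have hη0 : 0 < η := by positivity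
  obtain ⟨e, ⟨ι, _, t0, w, hw0, hw1, rfl⟩, he⟩ :=
    exists_lt_of_csInf_lt hne (show lam < lam + η ^ 2 / 4 by nlinarith)
  have hlow : ∀ (κ : Type) [Fintype κ] (t w : κ → ℝ), (∀ i, 0 ≤ w i) → ∑ i, w i = 1 →
      lam ≤ ∑ i, ∑ j, w i * w j * g ((t i - t j : ℝ) : ℂ) := fun κ _ t w h1 h2 =>
    csInf_le hbdd ⟨κ, inferInstance, t, w, h1, h2, rfl⟩
  -- pigeonhole for the base point
  obtain ⟨j0, hj0⟩ : ∃ j0, lam ≤ ∑ i, w i * g ((t0 i - t0 j0 : ℝ) : ℂ) := by
    by_contra h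
    push Not at h
    have h1 := hlow ι t0 w hw0 hw1
    rw [Finset.sum_comm] at h1
    have h2 : ∑ j, ∑ i, w i * w j * g ((t0 i - t0 j : ℝ) : ℂ) =
        ∑ j, w j * ∑ i, w i * g ((t0 i - t0 j : ℝ) : ℂ) := by
      simp only [Finset.mul_sum]
      refine Finset.sum_congr rfl fun i _ => Finset.sum_congr rfl fun j _ => by ring
    obtain ⟨j1, hj1⟩ : ∃ j1, 0 < w j1 := by
      by_contra h3
      push Not at h3
      have : ∑ i, w i ≤ 0 := Finset.sum_nonpos fun i _ => h3 i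
      linarith
    have h3 : ∑ j, w j * ∑ i, w i * g ((t0 i - t0 j : ℝ) : ℂ) < ∑ j, w j * lam :=
      Finset.sum_lt_sum (fun j _ => mul_le_mul_of_nonneg_left (h j).le (hw0 j))
        ⟨j1, Finset.mem_univ _, mul_lt_mul_of_pos_left (h j1) hj1⟩
    rw [← Finset.sum_mul, hw1, one_mul] at h3
    linarith
  set t : ι → ℝ := fun i => t0 i - t0 j0 with ht
  set e0 := ∑ i, ∑ j, w i * w j * g ((t0 i - t0 j : ℝ) : ℂ) with he0
  obtain ⟨u, hu1, hu2⟩ := exists_dirs
  -- the families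
  set P : ℂ → ℂ → ι → ℂ := fun v z i => (t i : ℂ) * v + z with hP
  have hX : ∀ (v : ℂ), ‖v‖ = 1 → ∀ (z : ℂ) (s : ℝ), E g (P v (z + s * v)) w (P v z) w =
      ∑ i, ∑ j, w i * w j * g ((t0 i - t0 j + s : ℝ) : ℂ) := by
    intro v hv z s
    unfold E
    refine Finset.sum_congr rfl fun i _ => Finset.sum_congr rfl fun j _ => ?_
    congr 1
    apply hg.rad
    have : P v (z + s * v) i - P v z j = ((t0 i - t0 j + s : ℝ) : ℂ) * v := by
      simp only [hP, ht]
      push_cast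
      ring
    rw [this, norm_mul, hv, mul_one]
  have hE : ∀ (v : ℂ), ‖v‖ = 1 → ∀ (z : ℂ), E g (P v z) w (P v z) w = e0 := by
    intro v hv z
    have := hX v hv z 0
    simp only [Complex.ofReal_zero, zero_mul, add_zero] at this
    exact this
  have hX2 : ∀ s : ℝ, 2 * lam - e0 ≤ ∑ i, ∑ j, w i * w j * g ((t0 i - t0 j + s : ℝ) : ℂ) := by
    intro s
    have h1 := hlow (ι ⊕ ι) (Sum.elim (fun i => t0 i + s) t0)
      (Sum.elim (fun i => w i / 2) (fun i => w i / 2))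
      (by rintro (i | i) <;> simp [div_nonneg (hw0 i)])
      (by simp [Fintype.sum_sum_type, ← Finset.sum_div, hw1]; norm_num)
    simp only [Fintype.sum_sum_type, Sum.elim_inl, Sum.elim_inr, Finset.sum_add_distrib] at h1
    have a1 : ∑ i, ∑ j, w i / 2 * (w j / 2) * g ((t0 i + s - (t0 j + s) : ℝ) : ℂ) = e0 / 4 := by
      rw [he0]
      simp only [Finset.sum_div]
      refine Finset.sum_congr rfl fun i _ => Finset.sum_congr rfl fun j _ => ?_
      rw [add_sub_add_right_eq_sub]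
      ring
    have a2 : ∑ i, ∑ j, w i / 2 * (w j / 2) * g ((t0 i - t0 j : ℝ) : ℂ) = e0 / 4 := by
      rw [he0]
      simp only [Finset.sum_div]
      refine Finset.sum_congr rfl fun i _ => Finset.sum_congr rfl fun j _ => ?_
      ring
    have a3 : ∑ i, ∑ j, w i / 2 * (w j / 2) * g ((t0 i + s - t0 j : ℝ) : ℂ) =
        (∑ i, ∑ j, w i * w j * g ((t0 i - t0 j + s : ℝ) : ℂ)) / 4 := by
      simp only [Finset.sum_div]
      refine Finset.sum_congr rfl fun i _ => Finset.sum_congr rfl fun j _ => ?_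
      rw [show t0 i + s - t0 j = t0 i - t0 j + s by ring]
      ring
    have a4 : ∑ i, ∑ j, w i / 2 * (w j / 2) * g ((t0 i - (t0 j + s) : ℝ) : ℂ) =
        (∑ i, ∑ j, w i * w j * g ((t0 i - t0 j + s : ℝ) : ℂ)) / 4 := by
      rw [Finset.sum_comm]
      simp only [Finset.sum_div]
      refine Finset.sum_congr rfl fun i _ => Finset.sum_congr rfl fun j _ => ?_
      rw [← hg.neg ((t0 j - (t0 i + s) : ℝ) : ℂ)]
      rw [show -((t0 j - (t0 i + s) : ℝ) : ℂ) = ((t0 i - t0 j + s : ℝ) : ℂ) by push_cast; ring]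
      ring
    rw [a1, a2, a3, a4] at h1
    linarith
  have hone : ∀ v z v' z' : ℂ, E g (P v z) w (P v' z') w ≤ 1 := fun v z v' z' =>
    hg.E_le_one _ _ _ _ hw0 hw1 hw0 hw1
  have hnear : ∀ (v : ℂ), ‖v‖ = 1 → ∀ (s : ℝ) (v' z' : ℂ),
      |E g (P v (s * v)) w (P v' z') w - E g (P v 0) w (P v' z') w| ≤ η := by
    intro v hv s v' z'
    apply hg.near _ _ _ _ _ hη0.le (hone _ _ _ _)
    have h1 := hX v hv 0 s
    rw [zero_add] at h1
    rw [hE v hv, hE v hv, h1]
    have := hX2 s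
    linarith
  have hcross : ∀ j l : ℕ, j ≠ l → E g (P (u j) 0) w (P (u l) 0) w ≤ 3 * η := by
    intro j l hjl
    have hbg : Bd g := ⟨1, hg.bd⟩
    have hb : ∀ a b : ι, Bd (fun s : ℂ => w a * w b * g (s + (t a * u j - t b * u l))) :=
      fun a b => (hbg.comp _).cmul _
    have h1 : N.M (fun s => ∑ a, ∑ b, w a * w b * g (s + (t a * u j - t b * u l))) ≤ 0 := by
      rw [N.sum _ (fun a => Bd.sum _ fun b => hb a b)]
      refine Finset.sum_nonpos fun a _ => ?_
      rw [N.sum _ (fun b => hb a b)]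
      refine Finset.sum_nonpos fun b _ => ?_
      rw [N.smul _ _ (hbg.comp _), hN g _ hbg]
      exact mul_nonpos_of_nonneg_of_nonpos (mul_nonneg (hw0 a) (hw0 b)) h0
    obtain ⟨s, hs⟩ := N.exists_le (Bd.sum Finset.univ fun a => Bd.sum Finset.univ fun b => hb a b)
      hη0
    obtain ⟨α, β, hαβ⟩ := hu2 j l hjl s
    have h2 : E g (P (u j) (α * u j)) w (P (u l) (β * u l)) w =
        ∑ a, ∑ b, w a * w b * g (s + (t a * u j - t b * u l)) := by
      unfold E
      refine Finset.sum_congr rfl fun a _ => Finset.sum_congr rfl fun b _ => ?_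
      congr 2
      simp only [hP]
      rw [hαβ]
      ring
    have h3 := abs_le.1 (hnear (u j) (hu1 j) α (u l) (β * u l))
    have h4 := abs_le.1 (hnear (u l) (hu1 l) β (u j) 0)
    rw [hg.E_symm (P (u l) (β * u l)), hg.E_symm (P (u l) 0)] at h4
    linarith [h3.1, h4.1]
  -- the final Cauchy-Schwarz
  have hcs := hg.cs0 (fun p : Fin n × ι => P (u p.1) 0 p.2) (fun p => w p.2)
  simp only [Fintype.sum_prod_type] at hcs
  have hl : (n : ℝ) * lam ≤ ∑ j : Fin n, ∑ i, w i * g (P (u j) 0 i) := by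
    have h1 : ∀ j : Fin n, lam ≤ ∑ i, w i * g (P (u j) 0 i) := by
      intro j
      refine hj0.trans (le_of_eq ?_)
      refine Finset.sum_congr rfl fun i _ => ?_
      congr 1
      apply hg.rad
      simp only [hP, ht]
      rw [add_zero, norm_mul, hu1, mul_one]
    calc (n : ℝ) * lam = ∑ _j : Fin n, lam := by simp
      _ ≤ _ := Finset.sum_le_sum fun j _ => h1 j
  have hr : ∑ j : Fin n, ∑ a, ∑ l : Fin n, ∑ b, w a * w b * g (P (u j) 0 a - P (u l) 0 b) ≤
      n * (1 + n * (3 * η)) := by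
    have h1 : ∀ j : Fin n, ∑ a, ∑ l : Fin n, ∑ b, w a * w b * g (P (u j) 0 a - P (u l) 0 b) ≤
        1 + n * (3 * η) := by
      intro j
      rw [Finset.sum_comm]
      have h2 : ∀ l : Fin n, ∑ a, ∑ b, w a * w b * g (P (u j) 0 a - P (u l) 0 b) ≤
          (if j = l then 1 else 0) + 3 * η := by
        intro l
        split_ifs with hjl
        · have := hone (u j) 0 (u l) 0
          unfold E at this
          linarith
        · have := hcross j l (fun h => hjl (Fin.ext h))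
          unfold E at this
          linarith
      calc _ ≤ ∑ l : Fin n, ((if j = l then (1 : ℝ) else 0) + 3 * η) :=
            Finset.sum_le_sum fun l _ => h2 l
        _ = 1 + n * (3 * η) := by
            rw [Finset.sum_add_distrib]
            simp
    calc _ ≤ ∑ _j : Fin n, (1 + n * (3 * η)) := Finset.sum_le_sum fun j _ => h1 j
      _ = n * (1 + n * (3 * η)) := by simp; ring
  have h5 : ((n : ℝ) * ε) ^ 2 ≤ n * (1 + n * (3 * η)) := by
    have h6 : (n : ℝ) * ε ≤ n * lam := mul_le_mul_of_nonneg_left hlam1 hn0.le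
    have h7 : ((n : ℝ) * ε) ^ 2 ≤ (∑ j : Fin n, ∑ i, w i * g (P (u j) 0 i)) ^ 2 :=
      pow_le_pow_left₀ (by positivity) (h6.trans hl) 2
    exact h7.trans (hcs.trans hr)
  rw [div_lt_iff₀ (by positivity)] at hn
  rw [hη] at h5
  have h8 : (n : ℝ) * ε ^ 2 ≤ 1 + n * (3 * (ε ^ 2 / 8)) := by
    have : (n : ℝ) * (n * ε ^ 2) ≤ n * (1 + n * (3 * (ε ^ 2 / 8))) := by nlinarith
    exact le_of_mul_le_mul_left this hn0
  nlinarith

end Pool.Agent.H719Z.FKW
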