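import Mathlib
import Pool.Agent.H719Z.FKW.Line

set_option autoImplicit false

namespace Pool.Agent.H719Z.FKW

/-- a small average along the real line at bounded scale -/
def Lin (g : ℂ → ℝ) (S δ : ℝ) : Prop :=
  ∃ (ι : Type) (_ : Fintype ι) (t w : ι → ℝ), (∀ i, 0 ≤ w i) ∧ ∑ i, w i = 1 ∧
    (∀ i, |t i| ≤ S) ∧ ∑ i, ∑ j, w i * w j * g ((t i - t j : ℝ) : ℂ) ≤ δ

/-- a small planar average at bounded scale -/
def Pla (g : ℂ → ℝ) (s δ : ℝ) : Prop :=
  ∃ (ι : Type) (_ : Fintype ι) (x : ι → ℂ) (w : ι → ℝ), (∀ i, 0 ≤ w i) ∧ ∑ i, w i = 1 ∧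
    (∀ i, ‖x i‖ ≤ s) ∧ E g x w x w ≤ δ

theorem pigeon (lam : ℕ → ℝ) (h0 : ∀ j, 0 ≤ lam j) (h1 : lam 0 ≤ 1) (J : ℕ) (hJ : 0 < J) :
    ∃ j, j < J ∧ lam j ≤ lam (j + 1) + 1 / J := by
  by_contra h
  push Not at h
  have hJ' : (0 : ℝ) < J := by exact_mod_cast hJ
  have key : ∀ n, n ≤ J → 0 < n → lam n + n * (1 / J) < lam 0 := by
    intro n
    induction n with
    | zero => intro _ h; omega
    | succ n ih =>
      intro hn _
      have h2 := h n (by omega)
      rcases Nat.eq_zero_or_pos n with rfl | hn0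
      · simpa using h2
      · have h3 := ih (by omega) hn0
        push_cast
        linarith
  have := key J le_rfl hJ
  rw [mul_one_div_cancel hJ'.ne'] at this
  linarith [h0 J]

theorem exists_weight_le {ι : Type} [Fintype ι] (w a : ι → ℝ) (hw0 : ∀ i, 0 ≤ w i)
    (hw1 : ∑ i, w i = 1) {c : ℝ} (h : ∑ i, w i * a i ≤ c) : ∃ i, a i ≤ c := by
  by_contra hc
  push Not at hc
  obtain ⟨j1, hj1⟩ : ∃ j1, 0 < w j1 := by
    by_contra h3
    push Not at h3
    have : ∑ i, w i ≤ 0 := Finset.sum_nonpos fun i _ => h3 i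
    linarith
  have h3 : ∑ j, w j * c < ∑ j, w j * a j :=
    Finset.sum_lt_sum (fun j _ => mul_le_mul_of_nonneg_left (hc j).le (hw0 j))
      ⟨j1, Finset.mem_univ _, mul_lt_mul_of_pos_left (hc j1) hj1⟩
  rw [← Finset.sum_mul, hw1, one_mul] at h3
  linarith

theorem exists_dirs' : ∃ u : ℕ → ℂ, (∀ j, ‖u j‖ = 1) ∧
    ∀ n j l : ℕ, j < n → l < n → j ≠ l → ∀ s : ℂ, ∃ α β : ℝ, |α| ≤ (1 + n) ^ 2 * ‖s‖ ∧
      |β| ≤ (1 + n) ^ 2 * ‖s‖ ∧ s = α * u j - β * u l := by
  have hne : ∀ j : ℕ, ‖(1 : ℂ) + j * Complex.I‖ ≠ 0 := by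
    intro j h
    have := congrArg Complex.re (norm_eq_zero.1 h)
    simp at this
  have hbd : ∀ n j l a b : ℕ, j ≠ l → a < n → b < n → ∀ s : ℂ,
      |(s.im - a * s.re) / (j - l) * ‖(1 : ℂ) + b * Complex.I‖| ≤ (1 + n) ^ 2 * ‖s‖ := by
    intro n j l a b hjl ha hb s
    have h1 : (1 : ℝ) ≤ |(j : ℝ) - l| := by
      have : (1 : ℤ) ≤ |(j : ℤ) - l| := Int.one_le_abs (by omega)
      exact_mod_cast this
    have ha' : (a : ℝ) ≤ n := by exact_mod_cast ha.le
    have hb' : (b : ℝ) ≤ n := by exact_mod_cast hb.le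
    have h2 : |s.im - a * s.re| ≤ (1 + n) * ‖s‖ := by
      have h3 := abs_sub s.im (a * s.re)
      rw [abs_mul, abs_of_nonneg (Nat.cast_nonneg (α := ℝ) a)] at h3
      have h4 := Complex.abs_im_le_norm s
      have h5 := Complex.abs_re_le_norm s
      have h6 : (a : ℝ) * |s.re| ≤ n * ‖s‖ :=
        mul_le_mul ha' h5 (abs_nonneg _) (Nat.cast_nonneg _)
      linarith
    have h3 : ‖(1 : ℂ) + b * Complex.I‖ ≤ 1 + n := by
      refine (norm_add_le _ _).trans ?_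
      simp only [norm_one, norm_mul, Complex.norm_natCast, Complex.norm_I, mul_one]
      linarith
    rw [abs_mul, abs_div, abs_norm]
    have h4 : |s.im - a * s.re| / |(j : ℝ) - l| ≤ (1 + n) * ‖s‖ :=
      (div_le_self (abs_nonneg _) h1).trans h2
    calc _ ≤ (1 + n) * ‖s‖ * (1 + n) :=
          mul_le_mul h4 h3 (norm_nonneg _) (by positivity)
      _ = _ := by ring
  refine ⟨fun j => (1 + j * Complex.I) / (‖(1 : ℂ) + j * Complex.I‖ : ℝ), ?_, ?_⟩
  · intro j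
    rw [norm_div, Complex.norm_real, norm_norm, div_self (hne j)]
  · intro n j l hj hl hjl s
    have h1 : ((j : ℝ) - l) ≠ 0 := sub_ne_zero.2 (by exact_mod_cast hjl)
    refine ⟨(s.im - l * s.re) / (j - l) * ‖(1 : ℂ) + j * Complex.I‖,
      (s.im - j * s.re) / (j - l) * ‖(1 : ℂ) + l * Complex.I‖, hbd n j l l j hjl hl hj s,
      hbd n j l j l hjl hj hl s, ?_⟩
    have h2 : ((‖(1 : ℂ) + j * Complex.I‖ : ℝ) : ℂ) ≠ 0 := by exact_mod_cast hne j
    have h3 : ((‖(1 : ℂ) + l * Complex.I‖ : ℝ) : ℂ) ≠ 0 := by exact_mod_cast hne l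
    have h4 : ((j : ℂ) - l) ≠ 0 := by exact_mod_cast h1
    have hs : s = s.re + s.im * Complex.I := (Complex.re_add_im s).symm
    push_cast
    field_simp
    rw [hs]
    simp only [Complex.add_re, Complex.ofReal_re, Complex.mul_re, Complex.I_re, mul_zero,
      Complex.ofReal_im, Complex.I_im, mul_one, sub_self, add_zero, Complex.add_im,
      Complex.mul_im, zero_add]
    ring

/-- a planar null average makes some translate of a pair of families nearly orthogonal -/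
theorem pla_cross {g : ℂ → ℝ} (hg : RPD g) {s η : ℝ} (hη : 0 ≤ η) (h : Pla g s (η ^ 2))
    {ι : Type} [Fintype ι] (w : ι → ℝ) (hw0 : ∀ i, 0 ≤ w i) (hw1 : ∑ i, w i = 1)
    (y : ι → ι → ℂ) : ∃ z : ℂ, ‖z‖ ≤ s ∧ ∑ a, ∑ b, w a * w b * g (z + y a b) ≤ η := by
  obtain ⟨κ, _, x, v, hv0, hv1, hx, hE⟩ := h
  have h1 : ∀ a b, ∑ c, v c * g (x c + y a b) ≤ η := by
    intro a b
    have h2 := hg.cs0 (fun c => x c + y a b) v
    simp only [add_sub_add_right_eq_sub] at h2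
    exact (abs_le_of_sq_le_sq' (h2.trans hE) hη).2
  have h2 : ∑ c, v c * (∑ a, ∑ b, w a * w b * g (x c + y a b)) ≤ η := by
    have e : ∑ c, v c * (∑ a, ∑ b, w a * w b * g (x c + y a b)) =
        ∑ a, ∑ b, w a * w b * ∑ c, v c * g (x c + y a b) := by
      simp only [Finset.mul_sum]
      rw [Finset.sum_comm]
      refine Finset.sum_congr rfl fun a _ => ?_
      rw [Finset.sum_comm]
      refine Finset.sum_congr rfl fun b _ => Finset.sum_congr rfl fun c _ => by ring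
    rw [e]
    calc _ ≤ ∑ a, ∑ b, w a * w b * η :=
          Finset.sum_le_sum fun a _ => Finset.sum_le_sum fun b _ =>
            mul_le_mul_of_nonneg_left (h1 a b) (mul_nonneg (hw0 a) (hw0 b))
      _ = η := by
          simp only [← Finset.sum_mul]
          rw [← Finset.sum_mul_sum, hw1]
          ring
  obtain ⟨c, hc⟩ := exists_weight_le v _ hv0 hv1 h2
  exact ⟨x c, hx c, hc⟩

/-- uniform passage from the plane to the line -/
theorem line_q {ε : ℝ} (hε : 0 < ε) : ∃ δ K : ℝ, 0 < δ ∧ ∀ g : ℂ → ℝ, RPD g →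
    ∀ s : ℝ, 0 ≤ s → Pla g s δ → Lin g (K * s) ε := by
  obtain ⟨n, hn⟩ := exists_nat_gt (2 / ε ^ 2)
  have hn0 : (0 : ℝ) < n := lt_trans (by positivity) hn
  set η : ℝ := ε ^ 2 / 8 with hη
  have hη0 : 0 < η := by positivity
  obtain ⟨J, hJ⟩ := exists_nat_gt (8 / η ^ 2)
  have hJ0 : (0 : ℝ) < J := lt_trans (by positivity) hJ
  have hJ1 : 1 / (J : ℝ) ≤ η ^ 2 / 8 := by
    rw [div_lt_iff₀ (by positivity)] at hJ
    rw [div_le_iff₀ hJ0]
    nlinarith
  refine ⟨η ^ 2, J * (1 + n) ^ 2, by positivity, ?_⟩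
  intro g hg s hs hpla
  by_contra hcon
  set B : ℝ := (1 + n) ^ 2 * s with hB
  have hB0 : 0 ≤ B := by positivity
  set Λ : ℕ → Set ℝ := fun m => {e | ∃ (ι : Type) (_ : Fintype ι) (t w : ι → ℝ),
      (∀ i, 0 ≤ w i) ∧ ∑ i, w i = 1 ∧ (∀ i, |t i| ≤ m * B) ∧
      e = ∑ i, ∑ j, w i * w j * g ((t i - t j : ℝ) : ℂ)} with hΛ
  have hmem : ∀ m, g 0 ∈ Λ m := fun m => ⟨Unit, inferInstance, fun _ => 0, fun _ => 1,
    fun _ => zero_le_one, by simp, fun _ => by simp only [abs_zero]; positivity, by simp⟩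
  have hne : ∀ m, (Λ m).Nonempty := fun m => ⟨_, hmem m⟩
  have hlb0 : ∀ m, ∀ e ∈ Λ m, 0 ≤ e := by
    rintro m e ⟨ι, _, t, w, h1, h2, h3, rfl⟩
    have := hg.psd ι (fun i => (t i : ℂ)) w
    simpa using this
  have hbdd : ∀ m, BddBelow (Λ m) := fun m => ⟨0, hlb0 m⟩
  obtain ⟨m, hmJ, hm⟩ := pigeon (fun m => sInf (Λ m)) (fun m => le_csInf (hne m) (hlb0 m))
    ((csInf_le (hbdd 0) (hmem 0)).trans (abs_le.1 (hg.bd 0)).2) J (by exact_mod_cast hJ0)
  have hlb : ∀ e ∈ Λ (m + 1), ε ≤ e := by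
    rintro e ⟨ι, _, t, w, h1, h2, h3, rfl⟩
    by_contra hlt
    apply hcon
    refine ⟨ι, inferInstance, t, w, h1, h2, fun i => (h3 i).trans ?_, (not_le.1 hlt).le⟩
    have : ((m + 1 : ℕ) : ℝ) ≤ J := by exact_mod_cast hmJ
    calc ((m + 1 : ℕ) : ℝ) * B ≤ J * B := mul_le_mul_of_nonneg_right this hB0
      _ = _ := by rw [hB]; ring
  set lam := sInf (Λ (m + 1)) with hlam
  have hlam1 : ε ≤ lam := le_csInf (hne _) hlb
  obtain ⟨e, ⟨ι, _, t0, w, hw0, hw1, ht0, rfl⟩, he⟩ :=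
    exists_lt_of_csInf_lt (hne m) (show sInf (Λ m) < lam + η ^ 2 / 4 by nlinarith)
  have hlow : ∀ (κ : Type) [Fintype κ] (t w : κ → ℝ), (∀ i, 0 ≤ w i) → ∑ i, w i = 1 →
      (∀ i, |t i| ≤ m * B + B) →
      lam ≤ ∑ i, ∑ j, w i * w j * g ((t i - t j : ℝ) : ℂ) := fun κ _ t w h1 h2 h3 =>
    csInf_le (hbdd _) ⟨κ, inferInstance, t, w, h1, h2, fun i => (h3 i).trans (by
      push_cast; linarith), rfl⟩
  obtain ⟨j0, hj0⟩ : ∃ j0, lam ≤ ∑ i, w i * g ((t0 i - t0 j0 : ℝ) : ℂ) := by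
    have h1 := hlow ι t0 w hw0 hw1 (fun i => by linarith [ht0 i])
    rw [Finset.sum_comm] at h1
    have h2 : ∑ j, w j * (-∑ i, w i * g ((t0 i - t0 j : ℝ) : ℂ)) =
        -∑ j, ∑ i, w i * w j * g ((t0 i - t0 j : ℝ) : ℂ) := by
      simp only [mul_neg, Finset.sum_neg_distrib, Finset.mul_sum]
      congr 1
      refine Finset.sum_congr rfl fun i _ => Finset.sum_congr rfl fun j _ => by ring
    obtain ⟨j, hj⟩ := exists_weight_le w (fun j => -∑ i, w i * g ((t0 i - t0 j : ℝ) : ℂ)) hw0 hw1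
      (c := -lam) (by rw [h2]; linarith)
    exact ⟨j, by linarith⟩
  set t : ι → ℝ := fun i => t0 i - t0 j0 with ht
  set e0 := ∑ i, ∑ j, w i * w j * g ((t0 i - t0 j : ℝ) : ℂ) with he0
  obtain ⟨u, hu1, hu2⟩ := exists_dirs'
  set P : ℂ → ℂ → ι → ℂ := fun v z i => (t i : ℂ) * v + z with hP
  have hX : ∀ (v : ℂ), ‖v‖ = 1 → ∀ (z : ℂ) (s : ℝ), E g (P v (z + s * v)) w (P v z) w =
      ∑ i, ∑ j, w i * w j * g ((t0 i - t0 j + s : ℝ) : ℂ) := by
    intro v hv z s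
    unfold E
    refine Finset.sum_congr rfl fun i _ => Finset.sum_congr rfl fun j _ => ?_
    congr 1
    apply hg.rad
    have : P v (z + s * v) i - P v z j = ((t0 i - t0 j + s : ℝ) : ℂ) * v := by
      simp only [hP, ht]
      push_cast
      ring
    rw [this, norm_mul, hv, mul_one]
  have hE : ∀ (v : ℂ), ‖v‖ = 1 → ∀ (z : ℂ), E g (P v z) w (P v z) w = e0 := by
    intro v hv z
    have := hX v hv z 0
    simp only [Complex.ofReal_zero, zero_mul, add_zero] at this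
    exact this
  have hX2 : ∀ s : ℝ, |s| ≤ B →
      2 * lam - e0 ≤ ∑ i, ∑ j, w i * w j * g ((t0 i - t0 j + s : ℝ) : ℂ) := by
    intro s hsB
    have h1 := hlow (ι ⊕ ι) (Sum.elim (fun i => t0 i + s) t0)
      (Sum.elim (fun i => w i / 2) (fun i => w i / 2))
      (by rintro (i | i) <;> simp [div_nonneg (hw0 i)])
      (by simp [Fintype.sum_sum_type, ← Finset.sum_div, hw1]; norm_num)
      (by
        rintro (i | i)
        · exact (abs_add_le _ _).trans (add_le_add (ht0 i) hsB)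
        · simp only [Sum.elim_inr]
          linarith [ht0 i])
    simp only [Fintype.sum_sum_type, Sum.elim_inl, Sum.elim_inr, Finset.sum_add_distrib] at h1
    have a1 : ∑ i, ∑ j, w i / 2 * (w j / 2) * g ((t0 i + s - (t0 j + s) : ℝ) : ℂ) = e0 / 4 := by
      rw [he0]
      simp only [Finset.sum_div]
      refine Finset.sum_congr rfl fun i _ => Finset.sum_congr rfl fun j _ => ?_
      rw [add_sub_add_right_eq_sub]
      ring
    have a2 : ∑ i, ∑ j, w i / 2 * (w j / 2) * g ((t0 i - t0 j : ℝ) : ℂ) = e0 / 4 := by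
      rw [he0]
      simp only [Finset.sum_div]
      refine Finset.sum_congr rfl fun i _ => Finset.sum_congr rfl fun j _ => ?_
      ring
    have a3 : ∑ i, ∑ j, w i / 2 * (w j / 2) * g ((t0 i + s - t0 j : ℝ) : ℂ) =
        (∑ i, ∑ j, w i * w j * g ((t0 i - t0 j + s : ℝ) : ℂ)) / 4 := by
      simp only [Finset.sum_div]
      refine Finset.sum_congr rfl fun i _ => Finset.sum_congr rfl fun j _ => ?_
      rw [show t0 i + s - t0 j = t0 i - t0 j + s by ring]
      ring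
    have a4 : ∑ i, ∑ j, w i / 2 * (w j / 2) * g ((t0 i - (t0 j + s) : ℝ) : ℂ) =
        (∑ i, ∑ j, w i * w j * g ((t0 i - t0 j + s : ℝ) : ℂ)) / 4 := by
      rw [Finset.sum_comm]
      simp only [Finset.sum_div]
      refine Finset.sum_congr rfl fun i _ => Finset.sum_congr rfl fun j _ => ?_
      rw [← hg.neg ((t0 j - (t0 i + s) : ℝ) : ℂ)]
      rw [show -((t0 j - (t0 i + s) : ℝ) : ℂ) = ((t0 i - t0 j + s : ℝ) : ℂ) by push_cast; ring]
      ring
    rw [a1, a2, a3, a4] at h1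
    linarith
  have hone : ∀ v z v' z' : ℂ, E g (P v z) w (P v' z') w ≤ 1 := fun v z v' z' =>
    hg.E_le_one _ _ _ _ hw0 hw1 hw0 hw1
  have hnear : ∀ (v : ℂ), ‖v‖ = 1 → ∀ (s : ℝ), |s| ≤ B → ∀ (v' z' : ℂ),
      |E g (P v (s * v)) w (P v' z') w - E g (P v 0) w (P v' z') w| ≤ η := by
    intro v hv s hsB v' z'
    apply hg.near _ _ _ _ _ hη0.le (hone _ _ _ _)
    have h1 := hX v hv 0 s
    rw [zero_add] at h1
    rw [hE v hv, hE v hv, h1]
    have := hX2 s hsB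
    linarith
  have hcross : ∀ j l : ℕ, j < n → l < n → j ≠ l →
      E g (P (u j) 0) w (P (u l) 0) w ≤ 3 * η := by
    intro j l hj hl hjl
    obtain ⟨z, hz, hs⟩ := pla_cross hg hη0.le hpla w hw0 hw1
      (fun a b => t a * u j - t b * u l)
    obtain ⟨α, β, hα, hβ, hαβ⟩ := hu2 n j l hj hl hjl z
    have hzB : (1 + (n : ℝ)) ^ 2 * ‖z‖ ≤ B := mul_le_mul_of_nonneg_left hz (by positivity)
    have h2 : E g (P (u j) (α * u j)) w (P (u l) (β * u l)) w =
        ∑ a, ∑ b, w a * w b * g (z + (t a * u j - t b * u l)) := by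
      unfold E
      refine Finset.sum_congr rfl fun a _ => Finset.sum_congr rfl fun b _ => ?_
      congr 2
      simp only [hP]
      rw [hαβ]
      ring
    have h3 := abs_le.1 (hnear (u j) (hu1 j) α (hα.trans hzB) (u l) (β * u l))
    have h4 := abs_le.1 (hnear (u l) (hu1 l) β (hβ.trans hzB) (u j) 0)
    rw [hg.E_symm (P (u l) (β * u l)), hg.E_symm (P (u l) 0)] at h4
    linarith [h3.1, h4.1]
  have hcs := hg.cs0 (fun p : Fin n × ι => P (u p.1) 0 p.2) (fun p => w p.2)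
  simp only [Fintype.sum_prod_type] at hcs
  have hl : (n : ℝ) * lam ≤ ∑ j : Fin n, ∑ i, w i * g (P (u j) 0 i) := by
    have h1 : ∀ j : Fin n, lam ≤ ∑ i, w i * g (P (u j) 0 i) := by
      intro j
      refine hj0.trans (le_of_eq ?_)
      refine Finset.sum_congr rfl fun i _ => ?_
      congr 1
      apply hg.rad
      simp only [hP, ht]
      rw [add_zero, norm_mul, hu1, mul_one]
    calc (n : ℝ) * lam = ∑ _j : Fin n, lam := by simp
      _ ≤ _ := Finset.sum_le_sum fun j _ => h1 j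
  have hr : ∑ j : Fin n, ∑ a, ∑ l : Fin n, ∑ b, w a * w b * g (P (u j) 0 a - P (u l) 0 b) ≤
      n * (1 + n * (3 * η)) := by
    have h1 : ∀ j : Fin n, ∑ a, ∑ l : Fin n, ∑ b, w a * w b * g (P (u j) 0 a - P (u l) 0 b) ≤
        1 + n * (3 * η) := by
      intro j
      rw [Finset.sum_comm]
      have h2 : ∀ l : Fin n, ∑ a, ∑ b, w a * w b * g (P (u j) 0 a - P (u l) 0 b) ≤
          (if j = l then 1 else 0) + 3 * η := by
        intro l
        split_ifs with hjl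
        · have := hone (u j) 0 (u l) 0
          unfold E at this
          linarith
        · have := hcross j l j.2 l.2 (fun h => hjl (Fin.ext h))
          unfold E at this
          linarith
      calc _ ≤ ∑ l : Fin n, ((if j = l then (1 : ℝ) else 0) + 3 * η) :=
            Finset.sum_le_sum fun l _ => h2 l
        _ = 1 + n * (3 * η) := by
            rw [Finset.sum_add_distrib]
            simp
    calc _ ≤ ∑ _j : Fin n, (1 + n * (3 * η)) := Finset.sum_le_sum fun j _ => h1 j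
      _ = n * (1 + n * (3 * η)) := by simp; ring
  have h5 : ((n : ℝ) * ε) ^ 2 ≤ n * (1 + n * (3 * η)) := by
    have h6 : (n : ℝ) * ε ≤ n * lam := mul_le_mul_of_nonneg_left hlam1 hn0.le
    have h7 : ((n : ℝ) * ε) ^ 2 ≤ (∑ j : Fin n, ∑ i, w i * g (P (u j) 0 i)) ^ 2 :=
      pow_le_pow_left₀ (by positivity) (h6.trans hl) 2
    exact h7.trans (hcs.trans hr)
  rw [div_lt_iff₀ (by positivity)] at hn
  rw [hη] at h5
  have h8 : (n : ℝ) * ε ^ 2 ≤ 1 + n * (3 * (ε ^ 2 / 8)) := by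
    have : (n : ℝ) * (n * ε ^ 2) ≤ n * (1 + n * (3 * (ε ^ 2 / 8))) := by nlinarith
    exact le_of_mul_le_mul_left this hn0
  nlinarith

end Pool.Agent.H719Z.FKW
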