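import Mathlib
import Pool.Agent.H719Z.FKW.Line

set_option autoImplicit false

namespace Pool.Agent.H719Z.FKW
open Polynomial

theorem natDegree_taylor_sub (p : ℝ[X]) (d : ℕ) (hp : p.natDegree = d + 2) (a b : ℝ)
    (hab : a ≠ b) : (taylor a p - taylor b p).natDegree = d + 1 := by
  have hp0 : p ≠ 0 := by
    rintro rfl
    simp at hp
  apply natDegree_eq_of_le_of_coeff_ne_zero
  · rw [natDegree_le_iff_coeff_eq_zero]
    intro n hn
    rw [coeff_sub]
    rcases eq_or_lt_of_le (show d + 2 ≤ n by omega) with h | h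
    · rw [← h, ← hp, coeff_taylor_natDegree, coeff_taylor_natDegree, sub_self]
    · rw [coeff_eq_zero_of_natDegree_lt (by rw [natDegree_taylor]; omega),
        coeff_eq_zero_of_natDegree_lt (by rw [natDegree_taylor]; omega), sub_self]
  · rw [coeff_sub, taylor_coeff, taylor_coeff]
    have h1 : (hasseDeriv (d + 1) p).natDegree ≤ 1 := by
      have := natDegree_hasseDeriv_le p (d + 1)
      omega
    rw [eq_X_add_C_of_natDegree_le_one h1]
    simp only [eval_add, eval_mul, eval_C, eval_X]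
    have h2 : (hasseDeriv (d + 1) p).coeff 1 ≠ 0 := by
      rw [hasseDeriv_coeff]
      apply mul_ne_zero
      · have : 0 < (1 + (d + 1)).choose (d + 1) := Nat.choose_pos (by omega)
        exact_mod_cast this.ne'
      · have : 1 + (d + 1) = p.natDegree := by omega
        rw [this]
        exact leadingCoeff_ne_zero.2 hp0
    intro h
    have h3 : (hasseDeriv (d + 1) p).coeff 1 * (a - b) = 0 := by linarith
    rcases mul_eq_zero.1 h3 with h4 | h4
    · exact h2 h4
    · exact hab (sub_eq_zero.1 h4)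

section
variable {g : ℂ → ℝ} (hg : RPD g) (m : Mean ℝ)
  (hm : ∀ (f : ℝ → ℝ) (h : ℝ), (∀ x, |f x| ≤ 1) → |m.M (fun x => f (x + h)) - m.M f| ≤ 2 * |h|)
include hg hm

/-- one van der Corput step -/
theorem smooth_step (φ : ℝ → ℝ) {ι : Type} [Fintype ι] (h w : ι → ℝ) (hw0 : ∀ i, 0 ≤ w i)
    (hw1 : ∑ i, w i = 1) {η δ : ℝ} (hη : ∀ i, |h i| ≤ η) (hδ : 0 ≤ δ)
    (hs : m.M (fun x => ∑ i, ∑ j, w i * w j * g ((φ (x + h i) - φ (x + h j) : ℝ) : ℂ)) ≤ δ ^ 2) :
    |m.M (fun x => g (φ x))| ≤ 2 * η + δ := by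
  have hbg : Bd g := ⟨1, hg.bd⟩
  have hb : ∀ i, Bd (fun x => w i * g (φ (x + h i))) := fun i => (hbg.comp _).cmul _
  set A := m.M (fun x => ∑ i, w i * g (φ (x + h i))) with hA
  have h1 : A = ∑ i, w i * m.M (fun x => g (φ (x + h i))) := by
    rw [hA, m.sum _ hb]
    exact Finset.sum_congr rfl fun i _ => m.smul _ _ (hbg.comp _)
  have h2 : |A - m.M (fun x => g (φ x))| ≤ 2 * η := by
    have e : A - m.M (fun x => g (φ x)) =
        ∑ i, w i * (m.M (fun x => g (φ (x + h i))) - m.M (fun x => g (φ x))) := by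
      simp only [mul_sub, Finset.sum_sub_distrib]
      rw [← Finset.sum_mul, hw1, one_mul, h1]
    rw [e]
    refine (Finset.abs_sum_le_sum_abs _ _).trans ?_
    calc ∑ i, |w i * (m.M (fun x => g (φ (x + h i))) - m.M (fun x => g (φ x)))|
        ≤ ∑ i, w i * (2 * η) := by
          refine Finset.sum_le_sum fun i _ => ?_
          rw [abs_mul, abs_of_nonneg (hw0 i)]
          apply mul_le_mul_of_nonneg_left _ (hw0 i)
          have := hm (fun x => g (φ x)) (h i) (fun x => hg.bd _)
          linarith [hη i]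
      _ = 2 * η := by rw [← Finset.sum_mul, hw1, one_mul]
  have h3 : A ^ 2 ≤ δ ^ 2 := by
    refine (m.sq_le (Bd.sum _ hb)).trans (le_trans ?_ hs)
    apply m.mono
    · simpa [sq] using (Bd.sum Finset.univ hb).mul (Bd.sum Finset.univ hb)
    · exact Bd.sum _ fun i => Bd.sum _ fun j => (hbg.comp _).cmul _
    · intro x
      have := hg.cs0 (fun i => ((φ (x + h i) : ℝ) : ℂ)) w
      simpa using this
  have h4 := abs_le_of_sq_le_sq' h3 hδ
  have h5 := abs_le.1 h2
  rw [abs_le]
  constructor <;> linarith [h4.1, h4.2, h5.1, h5.2]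

/-- polynomial means of a null function are small -/
theorem vdc (hβ : ∀ ε : ℝ, 0 < ε → ∃ (ι : Type) (_ : Fintype ι) (t w : ι → ℝ), (∀ i, 0 ≤ w i) ∧
      ∑ i, w i = 1 ∧ ∑ i, ∑ j, w i * w j * g ((t i - t j : ℝ) : ℂ) ≤ ε) (d : ℕ) :
    ∀ p : ℝ[X], p.natDegree = d + 1 → ∀ ε : ℝ, 0 < ε →
      ∀ᶠ r : ℝ in Filter.atTop, |m.M (fun x => g ((r * p.eval x : ℝ) : ℂ))| ≤ ε := by
  have hbg : Bd g := ⟨1, hg.bd⟩
  induction d with
  | zero =>
    intro p hp ε hε
    obtain ⟨ι, _, t, w, hw0, hw1, hs⟩ := hβ ((ε / 2) ^ 2) (by positivity)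
    have hp1 := eq_X_add_C_of_natDegree_le_one (p := p) (by omega)
    have hc : p.coeff 1 ≠ 0 := by
      have hp0 : p ≠ 0 := by
        rintro rfl
        simp at hp
      have : 1 = p.natDegree := by omega
      rw [this]
      exact leadingCoeff_ne_zero.2 hp0
    set c := p.coeff 1 with hcdef
    set T := ∑ i, |t i| with hT
    have hT0 : 0 ≤ T := Finset.sum_nonneg fun i _ => abs_nonneg _
    have hc' : 0 < |c| := abs_pos.2 hc
    filter_upwards [Filter.eventually_gt_atTop (0 : ℝ),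
      Filter.eventually_ge_atTop (4 * T / (ε * |c|))] with r hr0 hr
    have h1 := smooth_step hg m hm (fun x => r * p.eval x) (fun i => t i / (r * c)) w hw0 hw1
      (η := ε / 4) (δ := ε / 2) (fun i => by
        rw [abs_div, abs_mul, abs_of_pos hr0, div_le_iff₀ (by positivity)]
        have h2 : |t i| ≤ T := Finset.single_le_sum (f := fun i => |t i|)
          (fun i _ => abs_nonneg _) (Finset.mem_univ i)
        rw [div_le_iff₀ (by positivity)] at hr
        nlinarith) (by positivity) (by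
        have e : (fun x => ∑ i, ∑ j, w i * w j *
            g ((r * p.eval (x + t i / (r * c)) - r * p.eval (x + t j / (r * c)) : ℝ) : ℂ)) =
            fun _ => ∑ i, ∑ j, w i * w j * g ((t i - t j : ℝ) : ℂ) := by
          funext x
          refine Finset.sum_congr rfl fun i _ => Finset.sum_congr rfl fun j _ => ?_
          congr 3
          rw [hp1]
          simp only [eval_add, eval_mul, eval_C, eval_X]
          field_simp
          ring
        rw [e, m.const]
        exact hs)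
    linarith
  | succ d ih =>
    intro p hp ε hε
    obtain ⟨n, hn⟩ := exists_nat_gt (8 / ε ^ 2)
    have hn0 : (0 : ℝ) < n := lt_trans (by positivity) hn
    have hn1 : 0 < n := by exact_mod_cast hn0
    set h : Fin n → ℝ := fun i => (i : ℝ) * (ε / 4 / n) with hh
    have hinj : ∀ i j : Fin n, i ≠ j → h i ≠ h j := by
      intro i j hij he
      have h1 : (ε / 4 / n) ≠ 0 := by positivity
      have h2 : ((i : ℕ) : ℝ) = (j : ℕ) := mul_right_cancel₀ h1 he
      exact hij (Fin.ext (by exact_mod_cast h2))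
    have hev : ∀ᶠ r : ℝ in Filter.atTop, ∀ q : Fin n × Fin n, q.1 ≠ q.2 →
        |m.M (fun x => g ((r * (taylor (h q.1) p - taylor (h q.2) p).eval x : ℝ) : ℂ))|
          ≤ ε ^ 2 / 8 := by
      rw [Filter.eventually_all]
      intro q
      by_cases hq : q.1 = q.2
      · exact Filter.Eventually.of_forall fun r h => (h hq).elim
      · filter_upwards [ih _ (natDegree_taylor_sub p d hp _ _ (hinj _ _ hq)) (ε ^ 2 / 8)
          (by positivity)] with r hr _ using hr
    filter_upwards [hev] with r hr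
    have h1 := smooth_step hg m hm (fun x => r * p.eval x) h (fun _ => 1 / (n : ℝ))
      (fun _ => by positivity) (by simp; field_simp) (η := ε / 4) (δ := ε / 2) (fun i => by
        have hi : ((i : ℕ) : ℝ) ≤ n := by exact_mod_cast i.2.le
        rw [abs_of_nonneg (by positivity)]
        calc h i ≤ n * (ε / 4 / n) := mul_le_mul_of_nonneg_right hi (by positivity)
          _ = ε / 4 := by field_simp) (by positivity) (by
        have h2 := m.dbl hn1
          (fun i j x => g ((r * p.eval (x + h i) - r * p.eval (x + h j) : ℝ) : ℂ))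
          (fun i j x => hg.bd _) (ε := ε ^ 2 / 8) (by positivity) (fun i j hij => by
            have h3 := (abs_le.1 (hr (i, j) hij)).2
            simp only [eval_sub, taylor_eval, mul_sub] at h3
            exact h3)
        have e : (fun x => ∑ i, ∑ j, 1 / (n : ℝ) * (1 / (n : ℝ)) *
            g ((r * p.eval (x + h i) - r * p.eval (x + h j) : ℝ) : ℂ)) =
            fun x => 1 / (n : ℝ) ^ 2 * ∑ i, ∑ j,
              g ((r * p.eval (x + h i) - r * p.eval (x + h j) : ℝ) : ℂ) := by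
          funext x
          simp only [Finset.mul_sum]
          refine Finset.sum_congr rfl fun i _ => Finset.sum_congr rfl fun j _ => ?_
          ring
        rw [e]
        refine h2.trans ?_
        have h4 : 1 / (n : ℝ) ≤ ε ^ 2 / 8 := by
          rw [div_lt_iff₀ (by positivity)] at hn
          rw [div_le_iff₀ hn0]
          nlinarith
        nlinarith)
    linarith

end

/-- points on a circle -/
theorem circle_cs {g : ℂ → ℝ} (hg : RPD g) {n : ℕ} (hn : 0 < n) (ρ θ : ℝ) :
    g ρ ^ 2 ≤ 1 / (n : ℝ) ^ 2 * ∑ i : Fin n, ∑ j : Fin n,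
      g ((2 * ρ * Real.sin ((((i : ℕ) : ℤ) - ((j : ℕ) : ℤ) : ℤ) * θ) : ℝ) : ℂ) := by
  have hn0 : (0 : ℝ) < n := by exact_mod_cast hn
  have h := hg.cs0 (fun i : Fin n => (ρ : ℂ) * Complex.exp (Complex.I * ((2 * (i : ℕ) * θ : ℝ) : ℂ)))
    (fun _ => 1)
  have e1 : ∀ i : Fin n, g ((ρ : ℂ) * Complex.exp (Complex.I * ((2 * (i : ℕ) * θ : ℝ) : ℂ))) = g ρ := by
    intro i
    apply hg.rad
    rw [norm_mul, Complex.norm_exp_I_mul_ofReal, mul_one]
  have e2 : ∀ i j : Fin n, g ((ρ : ℂ) * Complex.exp (Complex.I * ((2 * (i : ℕ) * θ : ℝ) : ℂ)) -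
      (ρ : ℂ) * Complex.exp (Complex.I * ((2 * (j : ℕ) * θ : ℝ) : ℂ))) =
      g ((2 * ρ * Real.sin ((((i : ℕ) : ℤ) - ((j : ℕ) : ℤ) : ℤ) * θ) : ℝ) : ℂ) := by
    intro i j
    apply hg.rad
    have h1 : (ρ : ℂ) * Complex.exp (Complex.I * ((2 * (i : ℕ) * θ : ℝ) : ℂ)) -
        (ρ : ℂ) * Complex.exp (Complex.I * ((2 * (j : ℕ) * θ : ℝ) : ℂ)) =
        (ρ : ℂ) * Complex.exp (Complex.I * ((2 * (j : ℕ) * θ : ℝ) : ℂ)) *
          (Complex.exp (Complex.I * ((2 * (((i : ℕ) : ℝ) - (j : ℕ)) * θ : ℝ) : ℂ)) - 1) := by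
      rw [mul_sub, mul_one, mul_assoc (ρ : ℂ), ← Complex.exp_add]
      congr 3
      push_cast
      ring
    rw [h1, norm_mul, norm_mul, Complex.norm_exp_I_mul_ofReal, mul_one,
      Complex.norm_exp_I_mul_ofReal_sub_one, Complex.norm_real, Complex.norm_real, ← norm_mul]
    congr 1
    push_cast
    rw [show 2 * (((i : ℕ) : ℝ) - (j : ℕ)) * θ / 2 = (((i : ℕ) : ℝ) - (j : ℕ)) * θ by ring]
    ring
  simp only [e1, e2, one_mul, Finset.sum_const, Finset.card_univ, Fintype.card_fin,
    nsmul_eq_mul] at h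
  rw [one_div, inv_mul_eq_div, le_div_iff₀ (by positivity)]
  nlinarith

/-- the chord polynomials -/
noncomputable def chord (k l : ℤ) : ℝ[X] :=
  C 2 * (Chebyshev.T ℝ (k - l) - Chebyshev.T ℝ (k + l))

theorem chord_eval (k l : ℤ) (θ : ℝ) :
    (chord k l).eval (Real.cos θ) = 4 * Real.sin (k * θ) * Real.sin (l * θ) := by
  unfold chord
  simp only [eval_mul, eval_C, eval_sub, Chebyshev.T_real_cos]
  push_cast
  rw [sub_mul, add_mul, Real.cos_sub, Real.cos_add]
  ring

theorem chord_deg (k l : ℤ) (hk : k ≠ 0) (hl : l ≠ 0) : ∃ d, (chord k l).natDegree = d + 1 := by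
  unfold chord
  rw [natDegree_C_mul two_ne_zero]
  have h1 := Chebyshev.natDegree_T ℝ (k - l)
  have h2 := Chebyshev.natDegree_T ℝ (k + l)
  rcases lt_trichotomy (k - l).natAbs (k + l).natAbs with h | h | h
  · rw [natDegree_sub_eq_right_of_natDegree_lt (by omega), h2]
    exact ⟨(k + l).natAbs - 1, by omega⟩
  · omega
  · rw [natDegree_sub_eq_left_of_natDegree_lt (by omega), h1]
    exact ⟨(k - l).natAbs - 1, by omega⟩

/-- a radial positive semidefinite function with nonpositive planar mean decays at infinity -/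
theorem decay {g : ℂ → ℝ} (hg : RPD g) (N : Mean ℂ)
    (hN : ∀ (f : ℂ → ℝ) (a : ℂ), Bd f → N.M (fun x => f (x + a)) = N.M f) (h0 : N.M g ≤ 0)
    {ε : ℝ} (hε : 0 < ε) : ∀ᶠ r : ℝ in Filter.atTop, |g r| ≤ ε := by
  obtain ⟨m, hm1, hm⟩ := exists_local_mean
  have hbg : Bd g := ⟨1, hg.bd⟩
  set η : ℝ := min 1 (ε ^ 2 / 3) with hη
  have hη0 : 0 < η := lt_min one_pos (by positivity)
  have hη1 : η ≤ 1 := min_le_left _ _
  have hη2 : η ≤ ε ^ 2 / 3 := min_le_right _ _
  obtain ⟨n, hn⟩ := exists_nat_gt (1 / η ^ 2)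
  have hn0 : (0 : ℝ) < n := lt_trans (by positivity) hn
  have hn1 : 0 < n := by exact_mod_cast hn0
  have hn2 : 1 / (n : ℝ) ≤ η ^ 2 := by
    rw [div_lt_iff₀ (by positivity)] at hn
    rw [div_le_iff₀ hn0]
    nlinarith
  set D : Fin n × Fin n → ℤ := fun q => ((q.1 : ℕ) : ℤ) - ((q.2 : ℕ) : ℤ) with hD
  have hD0 : ∀ i j : Fin n, i ≠ j → D (i, j) ≠ 0 := by
    intro i j hij h
    apply hij
    apply Fin.ext
    simp only [hD] at h
    omega
  have hev : ∀ᶠ r : ℝ in Filter.atTop, ∀ q : (Fin n × Fin n) × (Fin n × Fin n),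
      D q.1 ≠ 0 → D q.2 ≠ 0 →
      |m.M (fun x => g ((r * (chord (D q.1) (D q.2)).eval x : ℝ) : ℂ))| ≤ 3 * η ^ 2 := by
    rw [Filter.eventually_all]
    intro q
    by_cases h1 : D q.1 = 0
    · exact Filter.Eventually.of_forall fun r h => (h h1).elim
    by_cases h2 : D q.2 = 0
    · exact Filter.Eventually.of_forall fun r _ h => (h h2).elim
    obtain ⟨d, hd⟩ := chord_deg _ _ h1 h2
    filter_upwards [vdc hg m hm (fun e he => line_small hg N hN h0 he) d _ hd (3 * η ^ 2)
      (by positivity)] with r hr _ _ using hr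
  filter_upwards [hev] with r hr
  have step2 : ∀ q : Fin n × Fin n, D q ≠ 0 →
      m.M (fun x => g ((2 * r * Real.sin (D q * Real.arccos x) : ℝ) : ℂ)) ≤ 2 * η := by
    intro q hq
    have h1 := m.sq_le (hbg.comp (fun x => ((2 * r * Real.sin (D q * Real.arccos x) : ℝ) : ℂ)))
    have h2 := m.dbl hn1 (fun i j x => g ((2 * (2 * r * Real.sin (D q * Real.arccos x)) *
        Real.sin (D (i, j) * Real.arccos x) : ℝ) : ℂ)) (fun i j x => hg.bd _)
        (ε := 3 * η ^ 2) (by positivity) (fun i j hij => by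
          have h3 := (abs_le.1 (hr (q, (i, j)) hq (hD0 i j hij))).2
          refine le_trans (le_of_eq ?_) h3
          apply hm1
          intro x hx0 hx1
          congr 2
          have h4 := chord_eval (D q) (D (i, j)) (Real.arccos x)
          rw [Real.cos_arccos (by linarith) hx1.le] at h4
          rw [h4]
          ring)
    have h3 := m.mono (f := fun x => g ((2 * r * Real.sin (D q * Real.arccos x) : ℝ) : ℂ) ^ 2)
      (by simpa only [sq] using (hbg.comp _).mul (hbg.comp _))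
      ((Bd.sum Finset.univ fun i : Fin n => Bd.sum Finset.univ fun j : Fin n =>
        hbg.comp (fun x => ((2 * (2 * r * Real.sin (D q * Real.arccos x)) *
        Real.sin (D (i, j) * Real.arccos x) : ℝ) : ℂ))).cmul (1 / (n : ℝ) ^ 2))
      (fun x => circle_cs hg hn1 _ (Real.arccos x))
    have h4 : (m.M (fun x => g ((2 * r * Real.sin (D q * Real.arccos x) : ℝ) : ℂ))) ^ 2 ≤
        (2 * η) ^ 2 := by nlinarith
    exact (abs_le_of_sq_le_sq' h4 (by positivity)).2
  have h2 := m.dbl hn1 (fun i j x => g ((2 * r * Real.sin (D (i, j) * Real.arccos x) : ℝ) : ℂ))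
    (fun i j x => hg.bd _) (ε := 2 * η) (by positivity) (fun i j hij => step2 _ (hD0 i j hij))
  have h3 := m.const_le (c := g r ^ 2)
      ((Bd.sum Finset.univ fun i : Fin n => Bd.sum Finset.univ fun j : Fin n =>
        hbg.comp (fun x => ((2 * r * Real.sin (D (i, j) * Real.arccos x) : ℝ) : ℂ))).cmul
          (1 / (n : ℝ) ^ 2))
      (fun x => circle_cs hg hn1 _ (Real.arccos x))
  have h4 : g r ^ 2 ≤ ε ^ 2 := by nlinarith
  exact abs_le.2 (abs_le_of_sq_le_sq' h4 hε.le)

end Pool.Agent.H719Z.FKW
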