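import Mathlib
import Pool.Agent.H719Z.FKW.VdC
import Pool.Agent.H719Z.FKW.ULine

set_option autoImplicit false

namespace Pool.Agent.H719Z.FKW
open Polynomial Filter Topology

/-- a property holds uniformly for large radii, for all functions with a small line average -/
def UU (P : (ℂ → ℝ) → ℝ → Prop) : Prop :=
  ∀ᶠ δ in 𝓝[>] (0 : ℝ), ∀ S : ℝ, ∀ᶠ r : ℝ in atTop, ∀ g : ℂ → ℝ, RPD g → Lin g S δ → P g r

theorem UU.all {ι : Type} [Finite ι] {P : ι → (ℂ → ℝ) → ℝ → Prop} (h : ∀ i, UU (P i)) :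
    UU (fun g r => ∀ i, P i g r) := by
  unfold UU at h ⊢
  filter_upwards [eventually_all.2 h] with δ hδ S
  filter_upwards [eventually_all.2 fun i => hδ i S] with r hr g hg hl i using hr i g hg hl

theorem UU.mono {P Q : (ℂ → ℝ) → ℝ → Prop} (h : UU P)
    (hPQ : ∀ g r, RPD g → P g r → Q g r) : UU Q := by
  unfold UU at h ⊢
  filter_upwards [h] with δ hδ S
  filter_upwards [hδ S] with r hr g hg hl using hPQ g r hg (hr g hg hl)

theorem UU.triv {P : (ℂ → ℝ) → ℝ → Prop} (h : ∀ g r, P g r) : UU P :=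
  Eventually.of_forall fun _ _ => Eventually.of_forall fun r g _ _ => h g r

theorem vdc_q (m : Mean ℝ)
    (hm : ∀ (f : ℝ → ℝ) (h : ℝ), (∀ x, |f x| ≤ 1) → |m.M (fun x => f (x + h)) - m.M f| ≤ 2 * |h|)
    (d : ℕ) : ∀ p : ℝ[X], p.natDegree = d + 1 → ∀ ε : ℝ, 0 < ε →
      UU (fun g r => |m.M (fun x => g ((r * p.eval x : ℝ) : ℂ))| ≤ ε) := by
  induction d with
  | zero =>
    intro p hp ε hε
    have hp1 := eq_X_add_C_of_natDegree_le_one (p := p) (by omega)
    have hc : p.coeff 1 ≠ 0 := by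
      have hp0 : p ≠ 0 := by
        rintro rfl
        simp at hp
      have : 1 = p.natDegree := by omega
      rw [this]
      exact leadingCoeff_ne_zero.2 hp0
    set c := p.coeff 1 with hcdef
    have hc' : 0 < |c| := abs_pos.2 hc
    unfold UU
    have hδ : ∀ᶠ δ in 𝓝[>] (0 : ℝ), δ ≤ (ε / 2) ^ 2 :=
      mem_nhdsWithin_of_mem_nhds (Iic_mem_nhds (by positivity))
    filter_upwards [hδ] with δ hδ T
    filter_upwards [eventually_gt_atTop (0 : ℝ),
      eventually_ge_atTop (4 * T / (ε * |c|))] with r hr0 hr g hg hl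
    obtain ⟨ι, _, t, w, hw0, hw1, hT, hs⟩ := hl
    have h1 := smooth_step hg m hm (fun x => r * p.eval x) (fun i => t i / (r * c)) w hw0 hw1
      (η := ε / 4) (δ := ε / 2) (fun i => by
        rw [abs_div, abs_mul, abs_of_pos hr0, div_le_iff₀ (by positivity)]
        have h2 : |t i| ≤ T := hT i
        rw [div_le_iff₀ (by positivity)] at hr
        nlinarith) (by positivity) (by
        have e : (fun x => ∑ i, ∑ j, w i * w j *
            g ((r * p.eval (x + t i / (r * c)) - r * p.eval (x + t j / (r * c)) : ℝ) : ℂ)) =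
            fun _ => ∑ i, ∑ j, w i * w j * g ((t i - t j : ℝ) : ℂ) := by
          funext x
          refine Finset.sum_congr rfl fun i _ => Finset.sum_congr rfl fun j _ => ?_
          congr 3
          rw [hp1]
          simp only [eval_add, eval_mul, eval_C, eval_X]
          field_simp
          ring
        rw [e, m.const]
        exact hs.trans hδ)
    linarith
  | succ d ih =>
    intro p hp ε hε
    obtain ⟨n, hn⟩ := exists_nat_gt (8 / ε ^ 2)
    have hn0 : (0 : ℝ) < n := lt_trans (by positivity) hn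
    have hn1 : 0 < n := by exact_mod_cast hn0
    set h : Fin n → ℝ := fun i => (i : ℝ) * (ε / 4 / n) with hh
    have hinj : ∀ i j : Fin n, i ≠ j → h i ≠ h j := by
      intro i j hij he
      have h1 : (ε / 4 / n) ≠ 0 := by positivity
      have h2 : ((i : ℕ) : ℝ) = (j : ℕ) := mul_right_cancel₀ h1 he
      exact hij (Fin.ext (by exact_mod_cast h2))
    have hev : UU (fun g r => ∀ q : Fin n × Fin n, q.1 ≠ q.2 →
        |m.M (fun x => g ((r * (taylor (h q.1) p - taylor (h q.2) p).eval x : ℝ) : ℂ))|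
          ≤ ε ^ 2 / 8) := by
      apply UU.all
      intro q
      by_cases hq : q.1 = q.2
      · exact UU.triv fun g r h => (h hq).elim
      · exact (ih _ (natDegree_taylor_sub p d hp _ _ (hinj _ _ hq)) (ε ^ 2 / 8)
          (by positivity)).mono fun g r _ hr _ => hr
    refine hev.mono fun g r hg hr => ?_
    have h1 := smooth_step hg m hm (fun x => r * p.eval x) h (fun _ => 1 / (n : ℝ))
      (fun _ => by positivity) (by simp; field_simp) (η := ε / 4) (δ := ε / 2) (fun i => by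
        have hi : ((i : ℕ) : ℝ) ≤ n := by exact_mod_cast i.2.le
        rw [abs_of_nonneg (by positivity)]
        calc h i ≤ n * (ε / 4 / n) := mul_le_mul_of_nonneg_right hi (by positivity)
          _ = ε / 4 := by field_simp) (by positivity) (by
        have h2 := m.dbl hn1
          (fun i j x => g ((r * p.eval (x + h i) - r * p.eval (x + h j) : ℝ) : ℂ))
          (fun i j x => hg.bd _) (ε := ε ^ 2 / 8) (by positivity) (fun i j hij => by
            have h3 := (abs_le.1 (hr (i, j) hij)).2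
            simp only [eval_sub, taylor_eval, mul_sub] at h3
            exact h3)
        have e : (fun x => ∑ i, ∑ j, 1 / (n : ℝ) * (1 / (n : ℝ)) *
            g ((r * p.eval (x + h i) - r * p.eval (x + h j) : ℝ) : ℂ)) =
            fun x => 1 / (n : ℝ) ^ 2 * ∑ i, ∑ j,
              g ((r * p.eval (x + h i) - r * p.eval (x + h j) : ℝ) : ℂ) := by
          funext x
          simp only [Finset.mul_sum]
          refine Finset.sum_congr rfl fun i _ => Finset.sum_congr rfl fun j _ => ?_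
          ring
        rw [e]
        refine h2.trans ?_
        have h4 : 1 / (n : ℝ) ≤ ε ^ 2 / 8 := by
          rw [div_lt_iff₀ (by positivity)] at hn
          rw [div_le_iff₀ hn0]
          nlinarith
        nlinarith)
    linarith

/-- uniform decay -/
theorem decay_q {ε : ℝ} (hε : 0 < ε) : UU (fun g r => |g r| ≤ ε) := by
  obtain ⟨m, hm1, hm⟩ := exists_local_mean
  set η : ℝ := min 1 (ε ^ 2 / 3) with hη
  have hη0 : 0 < η := lt_min one_pos (by positivity)
  have hη1 : η ≤ 1 := min_le_left _ _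
  have hη2 : η ≤ ε ^ 2 / 3 := min_le_right _ _
  obtain ⟨n, hn⟩ := exists_nat_gt (1 / η ^ 2)
  have hn0 : (0 : ℝ) < n := lt_trans (by positivity) hn
  have hn1 : 0 < n := by exact_mod_cast hn0
  have hn2 : 1 / (n : ℝ) ≤ η ^ 2 := by
    rw [div_lt_iff₀ (by positivity)] at hn
    rw [div_le_iff₀ hn0]
    nlinarith
  set D : Fin n × Fin n → ℤ := fun q => ((q.1 : ℕ) : ℤ) - ((q.2 : ℕ) : ℤ) with hD
  have hD0 : ∀ i j : Fin n, i ≠ j → D (i, j) ≠ 0 := by
    intro i j hij h
    apply hij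
    apply Fin.ext
    simp only [hD] at h
    omega
  have hev : UU (fun g r => ∀ q : (Fin n × Fin n) × (Fin n × Fin n),
      D q.1 ≠ 0 → D q.2 ≠ 0 →
      |m.M (fun x => g ((r * (chord (D q.1) (D q.2)).eval x : ℝ) : ℂ))| ≤ 3 * η ^ 2) := by
    apply UU.all
    intro q
    by_cases h1 : D q.1 = 0
    · exact UU.triv fun g r h => (h h1).elim
    by_cases h2 : D q.2 = 0
    · exact UU.triv fun g r _ h => (h h2).elim
    obtain ⟨d, hd⟩ := chord_deg _ _ h1 h2
    exact (vdc_q m hm d _ hd (3 * η ^ 2) (by positivity)).mono fun g r _ hr _ _ => hr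
  refine hev.mono fun g r hg hr => ?_
  have hbg : Bd g := ⟨1, hg.bd⟩
  have step2 : ∀ q : Fin n × Fin n, D q ≠ 0 →
      m.M (fun x => g ((2 * r * Real.sin (D q * Real.arccos x) : ℝ) : ℂ)) ≤ 2 * η := by
    intro q hq
    have h1 := m.sq_le (hbg.comp (fun x => ((2 * r * Real.sin (D q * Real.arccos x) : ℝ) : ℂ)))
    have h2 := m.dbl hn1 (fun i j x => g ((2 * (2 * r * Real.sin (D q * Real.arccos x)) *
        Real.sin (D (i, j) * Real.arccos x) : ℝ) : ℂ)) (fun i j x => hg.bd _)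
        (ε := 3 * η ^ 2) (by positivity) (fun i j hij => by
          have h3 := (abs_le.1 (hr (q, (i, j)) hq (hD0 i j hij))).2
          refine le_trans (le_of_eq ?_) h3
          apply hm1
          intro x hx0 hx1
          congr 2
          have h4 := chord_eval (D q) (D (i, j)) (Real.arccos x)
          rw [Real.cos_arccos (by linarith) hx1.le] at h4
          rw [h4]
          ring)
    have h3 := m.mono (f := fun x => g ((2 * r * Real.sin (D q * Real.arccos x) : ℝ) : ℂ) ^ 2)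
      (by simpa only [sq] using (hbg.comp _).mul (hbg.comp _))
      ((Bd.sum Finset.univ fun i : Fin n => Bd.sum Finset.univ fun j : Fin n =>
        hbg.comp (fun x => ((2 * (2 * r * Real.sin (D q * Real.arccos x)) *
        Real.sin (D (i, j) * Real.arccos x) : ℝ) : ℂ))).cmul (1 / (n : ℝ) ^ 2))
      (fun x => circle_cs hg hn1 _ (Real.arccos x))
    have h4 : (m.M (fun x => g ((2 * r * Real.sin (D q * Real.arccos x) : ℝ) : ℂ))) ^ 2 ≤
        (2 * η) ^ 2 := by nlinarith
    exact (abs_le_of_sq_le_sq' h4 (by positivity)).2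
  have h2 := m.dbl hn1 (fun i j x => g ((2 * r * Real.sin (D (i, j) * Real.arccos x) : ℝ) : ℂ))
    (fun i j x => hg.bd _) (ε := 2 * η) (by positivity) (fun i j hij => step2 _ (hD0 i j hij))
  have h3 := m.const_le (c := g r ^ 2)
      ((Bd.sum Finset.univ fun i : Fin n => Bd.sum Finset.univ fun j : Fin n =>
        hbg.comp (fun x => ((2 * r * Real.sin (D (i, j) * Real.arccos x) : ℝ) : ℂ))).cmul
          (1 / (n : ℝ) ^ 2))
      (fun x => circle_cs hg hn1 _ (Real.arccos x))
  have h4 : g r ^ 2 ≤ ε ^ 2 := by nlinarith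
  exact abs_le.2 (abs_le_of_sq_le_sq' h4 hε.le)

/-- uniform decay from a planar null average -/
theorem decay_pla {ε : ℝ} (hε : 0 < ε) : ∃ δ : ℝ, 0 < δ ∧ ∀ s : ℝ, 0 ≤ s →
    ∀ᶠ r : ℝ in atTop, ∀ g : ℂ → ℝ, RPD g → Pla g s δ → |g r| ≤ ε := by
  obtain ⟨δ1, h1, hδ1⟩ := ((decay_q hε).and self_mem_nhdsWithin).exists
  obtain ⟨δ, K, hδ, hK⟩ := line_q (ε := δ1) hδ1
  refine ⟨δ, hδ, fun s hs => ?_⟩
  filter_upwards [h1 (K * s)] with r hr g hg hp using hr g hg (hK g hg s hs hp)

/-- rotation by an angle -/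
noncomputable def rot (θ : ℝ) : ℂ := Complex.exp (Complex.I * (θ : ℂ))

theorem rot_norm (θ : ℝ) : ‖rot θ‖ = 1 := Complex.norm_exp_I_mul_ofReal θ

theorem rot_add (a b : ℝ) : rot (a + b) = rot a * rot b := by
  unfold rot
  push_cast
  rw [mul_add, Complex.exp_add]

theorem rot_arg (v : ℂ) : v = rot (Complex.arg v) * (‖v‖ : ℝ) := by
  unfold rot
  rw [mul_comm, mul_comm Complex.I]
  exact (Complex.norm_mul_exp_arg_mul_I v).symm

theorem rad_of_rot {f : ℂ → ℝ} (h : ∀ (θ : ℝ) (v : ℂ), f (rot θ * v) = f v) (v w : ℂ)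
    (hvw : ‖v‖ = ‖w‖) : f v = f w := by
  rw [rot_arg v, rot_arg w, h, h, hvw]

theorem RPD.shift_le {g : ℂ → ℝ} (hg : RPD g) {ι : Type} [Fintype ι] (x : ι → ℂ) (w : ι → ℝ)
    (s : ℂ) : ∑ i, ∑ j, w i * w j * g (x i - x j + s) ≤ ∑ i, ∑ j, w i * w j * g (x i - x j) := by
  have h2 := hg.quad (fun i => x i + s) w x w 1 (-1)
  unfold E at h2
  simp only [add_sub_add_right_eq_sub] at h2
  have e : ∑ i, ∑ j, w i * w j * g (x i + s - x j) =
      ∑ i, ∑ j, w i * w j * g (x i - x j + s) := by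
    refine Finset.sum_congr rfl fun i _ => Finset.sum_congr rfl fun j _ => ?_
    congr 2
    ring
  rw [e] at h2
  linarith

theorem swap4 {ι κ : Type} [Fintype ι] [Fintype κ] (A : ι → ι → κ → κ → ℝ) :
    ∑ i, ∑ j, ∑ p, ∑ q, A i j p q = ∑ p, ∑ q, ∑ i, ∑ j, A i j p q := by
  calc ∑ i, ∑ j, ∑ p, ∑ q, A i j p q = ∑ i, ∑ p, ∑ j, ∑ q, A i j p q :=
        Finset.sum_congr rfl fun i _ => Finset.sum_comm
    _ = ∑ p, ∑ i, ∑ j, ∑ q, A i j p q := Finset.sum_comm
    _ = ∑ p, ∑ i, ∑ q, ∑ j, A i j p q :=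
        Finset.sum_congr rfl fun p _ => Finset.sum_congr rfl fun i _ => Finset.sum_comm
    _ = ∑ p, ∑ q, ∑ i, ∑ j, A i j p q :=
        Finset.sum_congr rfl fun p _ => Finset.sum_comm

theorem prod4 {ι κ : Type} [Fintype ι] [Fintype κ] (A : ι × κ → ι × κ → ℝ) :
    ∑ a, ∑ b, A a b = ∑ i, ∑ j, ∑ p, ∑ q, A (i, p) (j, q) := by
  rw [Fintype.sum_prod_type]
  refine Finset.sum_congr rfl fun i _ => ?_
  simp only [Fintype.sum_prod_type]
  rw [Finset.sum_comm]

/-- a weighted family all of whose rotated and translated averages are at least `c` -/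
def Good (f : ℂ → ℝ) (c : ℝ) {ι : Type} [Fintype ι] (y : ι → ℂ) (W : ι → ℝ) : Prop :=
  ∀ (v : ℂ) (θ : ℝ), c ≤ ∑ p, ∑ q, W p * W q * f (v + rot θ * (y p - y q))

theorem split {f : ℂ → ℝ} (hf : RPD f) (hf0 : ∀ v, 0 ≤ f v) {c s0 : ℝ} (hs0 : 0 ≤ s0)
    {ι0 : Type} [Fintype ι0] (y0 : ι0 → ℂ) (W0 : ι0 → ℝ) (hW0 : ∀ i, 0 ≤ W0 i)
    (hW1 : ∑ i, W0 i = 1) (hy0 : ∀ i, ‖y0 i‖ ≤ s0) (hG : Good f c y0 W0) (J : ℕ) (hJ : 0 < J) :
    ∃ fl : ℂ → ℝ, RPD (fun v => f v - fl v) ∧ (∀ v, c ≤ fl v) ∧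
      Pla (fun v => f v - fl v) (2 ^ J * s0) (2 / J) := by
  obtain ⟨M, hM⟩ := exists_inv_mean ℝ
  have hJ' : (0 : ℝ) < J := by exact_mod_cast hJ
  have hfB : Bd f := ⟨1, hf.bd⟩
  set Λ : ℕ → Set ℝ := fun m => {e | ∃ (ι : Type) (_ : Fintype ι) (y : ι → ℂ) (W : ι → ℝ),
      (∀ i, 0 ≤ W i) ∧ ∑ i, W i = 1 ∧ (∀ i, ‖y i‖ ≤ 2 ^ m * s0) ∧ Good f c y W ∧
      e = E f y W y W} with hΛ
  have hmem : ∀ m, E f y0 W0 y0 W0 ∈ Λ m := fun m => ⟨ι0, inferInstance, y0, W0, hW0, hW1,
    fun i => (hy0 i).trans (le_mul_of_one_le_left hs0 (one_le_pow₀ one_le_two)), hG, rfl⟩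
  have hne : ∀ m, (Λ m).Nonempty := fun m => ⟨_, hmem m⟩
  have hlb0 : ∀ m, ∀ e ∈ Λ m, 0 ≤ e := by
    rintro m e ⟨ι, _, y, W, h1, h2, h3, h4, rfl⟩
    exact hf.E_nonneg y W
  have hbdd : ∀ m, BddBelow (Λ m) := fun m => ⟨0, hlb0 m⟩
  obtain ⟨m, hmJ, hm⟩ := pigeon (fun m => sInf (Λ m)) (fun m => le_csInf (hne m) (hlb0 m))
    ((csInf_le (hbdd 0) (hmem 0)).trans (hf.E_le_one _ _ _ _ hW0 hW1 hW0 hW1)) J hJ
  obtain ⟨e, ⟨ι, _, y, W, hw0, hw1, hy, hgood, rfl⟩, he⟩ :=
    exists_lt_of_csInf_lt (hne m) (show sInf (Λ m) < sInf (Λ (m + 1)) + 2 / J by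
      have : (0 : ℝ) < 1 / J := by positivity
      have e2 : (2 : ℝ) / J = 1 / J + 1 / J := by ring
      linarith)
  set F : ℂ → ℝ → ℝ := fun v θ => ∑ p, ∑ q, W p * W q * f (v + rot θ * (y p - y q)) with hF
  have hFB : ∀ v, Bd (F v) := fun v =>
    Bd.sum _ fun p => Bd.sum _ fun q => (hfB.comp _).cmul _
  have hF0 : ∀ v θ, 0 ≤ F v θ := fun v θ => Finset.sum_nonneg fun p _ =>
    Finset.sum_nonneg fun q _ => mul_nonneg (mul_nonneg (hw0 p) (hw0 q)) (hf0 _)
  have hF1 : ∀ v θ, F v θ ≤ 1 := by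
    intro v θ
    have := hf.E_le_one (fun p => v + rot θ * y p) W (fun q => rot θ * y q) W hw0 hw1 hw0 hw1
    refine le_trans (le_of_eq ?_) this
    unfold E
    refine Finset.sum_congr rfl fun p _ => Finset.sum_congr rfl fun q _ => ?_
    congr 2
    ring
  have hsum : ∀ (κ : Type) [Fintype κ] (x : κ → ℂ) (a : κ → ℝ),
      ∑ i, ∑ j, a i * a j * (f (x i - x j) - M.M (F (x i - x j))) =
      ∑ i, ∑ j, a i * a j * f (x i - x j) -
        M.M (fun θ => ∑ i, ∑ j, a i * a j * F (x i - x j) θ) := by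
    intro κ _ x a
    rw [M.sum _ (fun i => Bd.sum _ fun j => (hFB _).cmul _)]
    simp only [M.sum _ (fun j => (hFB _).cmul _), M.smul _ _ (hFB _), mul_sub,
      Finset.sum_sub_distrib]
  have hswap : ∀ (κ : Type) [Fintype κ] (x : κ → ℂ) (a : κ → ℝ) (θ : ℝ),
      ∑ i, ∑ j, a i * a j * F (x i - x j) θ =
      ∑ p, ∑ q, W p * W q * ∑ i, ∑ j, a i * a j * f (x i - x j + rot θ * (y p - y q)) := by
    intro κ _ x a θ
    simp only [hF, Finset.mul_sum]
    rw [swap4]
    refine Finset.sum_congr rfl fun p _ => Finset.sum_congr rfl fun q _ =>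
      Finset.sum_congr rfl fun i _ => Finset.sum_congr rfl fun j _ => by ring
  refine ⟨fun v => M.M (F v), ⟨?_, ?_, ?_⟩, fun v => M.const_le (hFB v) (hgood v), ?_⟩
  · intro v w hvw
    rw [hf.rad v w hvw]
    congr 1
    refine rad_of_rot (f := fun v => M.M (F v)) (fun θ v => ?_) v w hvw
    rw [← hM (F (rot θ * v)) θ (hFB _)]
    congr 1
    funext t
    simp only [hF]
    refine Finset.sum_congr rfl fun p _ => Finset.sum_congr rfl fun q _ => ?_
    congr 1
    apply hf.rad
    rw [rot_add, show rot θ * v + rot t * rot θ * (y p - y q) =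
      rot θ * (v + rot t * (y p - y q)) by ring, norm_mul, rot_norm, one_mul]
  · intro κ _ x a
    rw [hsum, sub_nonneg]
    apply M.le_const (Bd.sum _ fun i => Bd.sum _ fun j => (hFB _).cmul _)
    intro θ
    rw [hswap]
    calc _ ≤ ∑ p, ∑ q, W p * W q * ∑ i, ∑ j, a i * a j * f (x i - x j) :=
          Finset.sum_le_sum fun p _ => Finset.sum_le_sum fun q _ =>
            mul_le_mul_of_nonneg_left (hf.shift_le x a _) (mul_nonneg (hw0 p) (hw0 q))
      _ = _ := by
          simp only [← Finset.sum_mul]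
          rw [← Finset.sum_mul_sum, hw1]
          ring
  · intro v
    have h1 := M.const_le (hFB v) (hF0 v)
    have h2 := M.le_const (hFB v) (hF1 v)
    have h3 := (abs_le.1 (hf.bd v)).2
    rw [abs_le]
    constructor <;> linarith [hf0 v]
  · refine ⟨ι, inferInstance, y, W, hw0, hw1, fun i => (hy i).trans
      (mul_le_mul_of_nonneg_right (pow_le_pow_right₀ one_le_two hmJ.le) hs0), ?_⟩
    unfold E
    rw [hsum]
    have h1 : sInf (Λ (m + 1)) ≤ M.M (fun θ => ∑ i, ∑ j, W i * W j * F (y i - y j) θ) := by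
      apply M.const_le (Bd.sum _ fun i => Bd.sum _ fun j => (hFB _).cmul _)
      intro θ
      apply csInf_le (hbdd _)
      refine ⟨ι × ι, inferInstance, fun p => y p.1 + rot θ * y p.2, fun p => W p.1 * W p.2,
        fun p => mul_nonneg (hw0 _) (hw0 _), ?_, ?_, ?_, ?_⟩
      · rw [Fintype.sum_prod_type, ← Finset.sum_mul_sum, hw1, mul_one]
      · intro p
        refine (norm_add_le _ _).trans ?_
        rw [norm_mul, rot_norm, one_mul, pow_succ]
        linarith [hy p.1, hy p.2]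
      · intro v φ
        rw [prod4, swap4]
        calc c = ∑ p, ∑ q, W p * W q * c := by
              simp only [← Finset.sum_mul]
              rw [← Finset.sum_mul_sum, hw1]
              ring
          _ ≤ ∑ p, ∑ q, W p * W q * ∑ i, ∑ j, W i * W j *
                f (v + rot φ * (rot θ * (y p - y q)) + rot φ * (y i - y j)) :=
              Finset.sum_le_sum fun p _ => Finset.sum_le_sum fun q _ =>
                mul_le_mul_of_nonneg_left (hgood _ φ) (mul_nonneg (hw0 p) (hw0 q))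
          _ = _ := by
              simp only [Finset.mul_sum]
              refine Finset.sum_congr rfl fun p _ => Finset.sum_congr rfl fun q _ =>
                Finset.sum_congr rfl fun i _ => Finset.sum_congr rfl fun j _ => ?_
              rw [show v + rot φ * (rot θ * (y p - y q)) + rot φ * (y i - y j) =
                v + rot φ * (y i + rot θ * y p - (y j + rot θ * y q)) by ring]
              ring
      · unfold E
        rw [prod4]
        simp only [hF, Finset.mul_sum]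
        refine Finset.sum_congr rfl fun i _ => Finset.sum_congr rfl fun j _ =>
          Finset.sum_congr rfl fun p _ => Finset.sum_congr rfl fun q _ => ?_
        rw [show y i - y j + rot θ * (y p - y q) =
          y i + rot θ * y p - (y j + rot θ * y q) by ring]
        ring
    unfold E at he
    linarith

end Pool.Agent.H719Z.FKW
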