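import Mathlib
import Pool.Agent.H719Z.FKW.VdC

set_option autoImplicit false

namespace Pool.Agent.H719Z.FKW

theorem quad_col {k : ℕ} (hk : 0 < k) {ι : Type} [Fintype ι] (col : ι → Fin k) (c : ι → ℝ) :
    0 ≤ ∑ i, ∑ j, c i * c j * ((if col i = col j then (1 : ℝ) else 0) - 1 / k) := by
  classical
  have hk' : (0 : ℝ) < k := by exact_mod_cast hk
  set S : Fin k → ℝ := fun a => ∑ i, if col i = a then c i else 0 with hS
  have h1 : ∑ i, ∑ j, c i * c j * (if col i = col j then (1 : ℝ) else 0) = ∑ a, S a ^ 2 := by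
    simp only [hS, sq, Finset.sum_mul_sum]
    rw [Finset.sum_comm (γ := Fin k)]
    refine Finset.sum_congr rfl fun i _ => ?_
    rw [Finset.sum_comm (γ := Fin k)]
    refine Finset.sum_congr rfl fun j _ => ?_
    rw [Finset.sum_eq_single (col i)]
    · by_cases h : col i = col j
      · simp [h]
      · simp [h, Ne.symm h]
    · intro b _ hb
      simp [Ne.symm hb]
    · simp
  have h2 : ∑ a, S a = ∑ i, c i := by
    simp only [hS]
    rw [Finset.sum_comm]
    simp
  have h3 : (∑ a, S a) ^ 2 ≤ k * ∑ a, S a ^ 2 := by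
    have := sq_sum_le_card_mul_sum_sq (s := Finset.univ) (f := S)
    simpa using this
  have h4 : ∑ i, ∑ j, c i * c j * ((if col i = col j then (1 : ℝ) else 0) - 1 / k) =
      ∑ a, S a ^ 2 - (∑ a, S a) ^ 2 / k := by
    rw [← h1, h2, sq, Finset.sum_mul_sum]
    simp only [mul_sub, Finset.sum_sub_distrib, Finset.sum_div]
    congr 1
    refine Finset.sum_congr rfl fun i _ => Finset.sum_congr rfl fun j _ => by ring
  rw [h4, sub_nonneg, div_le_iff₀ hk']
  linarith

/-- every finite colouring of the complex plane has monochromatic pairs at all large distances -/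
theorem main_complex {k : ℕ} (c : ℂ → Fin k) :
    ∀ᶠ r : ℝ in Filter.atTop, ∃ x y : ℂ, ‖x - y‖ = r ∧ c x = c y := by
  have hk : 0 < k := Fin.pos (c 0)
  have hk' : (0 : ℝ) < k := by exact_mod_cast hk
  have hk1 : 1 / (k : ℝ) ≤ 1 := by
    rw [div_le_one hk']
    exact_mod_cast hk
  have hk2 : 0 < 1 / (k : ℝ) := by positivity
  obtain ⟨M, hM⟩ := exists_inv_mean ℝ
  obtain ⟨N, hN⟩ := exists_inv_mean ℂ
  set I : ℂ → ℂ → ℝ := fun a b => if c a = c b then 1 else 0 with hI
  have hI0 : ∀ a b, 0 ≤ I a b := fun a b => by simp only [hI]; split_ifs <;> norm_num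
  have hI1 : ∀ a b, I a b ≤ 1 := fun a b => by simp only [hI]; split_ifs <;> norm_num
  have hIb : ∀ a b, |I a b| ≤ 1 := fun a b => by rw [abs_of_nonneg (hI0 a b)]; exact hI1 a b
  set φ : ℂ → ℝ := fun v => N.M (fun a => I (a + v) a) with hφ
  have hφ0 : ∀ v, 0 ≤ φ v := fun v => N.nonneg _ ⟨1, fun a => hIb _ _⟩ fun a => hI0 _ _
  have hφb : ∀ v, |φ v| ≤ 1 := fun v => N.abs_le fun a => hIb _ _
  have hφB : Bd φ := ⟨1, hφb⟩
  have hφpsd : ∀ (ι : Type) [Fintype ι] (x : ι → ℂ) (w : ι → ℝ),
      0 ≤ ∑ i, ∑ j, w i * w j * (φ (x i - x j) - 1 / k) := by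
    intro ι _ x w
    have hb : ∀ i j, Bd (fun a => I (a + x i) (a + x j)) := fun i j => ⟨1, fun a => hIb _ _⟩
    have e : ∀ i j, w i * w j * (φ (x i - x j) - 1 / k) =
        N.M (fun a => w i * w j * (I (a + x i) (a + x j) - 1 / k)) := by
      intro i j
      rw [N.smul _ _ ((hb i j).sub (Bd.const _)), N.sub (hb i j) (Bd.const _), N.const]
      congr 2
      have := hN (fun a => I (a + (x i - x j)) a) (x j) ⟨1, fun a => hIb _ _⟩
      simp only [hφ]
      rw [← this]
      congr 1
      funext a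
      congr 1
      ring
    have hb2 : ∀ i j, Bd (fun a => w i * w j * (I (a + x i) (a + x j) - 1 / k)) :=
      fun i j => ((hb i j).sub (Bd.const _)).cmul _
    simp only [e]
    simp only [← N.sum _ (hb2 _)]
    rw [← N.sum _ (fun i => Bd.sum _ (hb2 i))]
    exact N.nonneg _ (Bd.sum _ fun i => Bd.sum _ (hb2 i))
      fun a => quad_col hk (fun i => c (a + x i)) w
  set u : ℝ → ℂ := fun θ => Complex.exp (Complex.I * (θ : ℂ)) with hu
  have hu1 : ∀ θ, ‖u θ‖ = 1 := fun θ => Complex.norm_exp_I_mul_ofReal θ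
  set f : ℂ → ℝ := fun v => M.M (fun θ => φ (u θ * v)) with hf
  have hf0 : ∀ v, 0 ≤ f v := fun v => M.nonneg _ (hφB.comp _) fun θ => hφ0 _
  have hfb : ∀ v, |f v| ≤ 1 := fun v => M.abs_le fun θ => hφb _
  have hf1 : ∀ v, f v ≤ 1 := fun v => (abs_le.1 (hfb v)).2
  have hfB : Bd f := ⟨1, hfb⟩
  have hrot : ∀ (θ : ℝ) (v : ℂ), f (u θ * v) = f v := by
    intro θ v
    have := hM (fun θ => φ (u θ * v)) θ (hφB.comp _)
    simp only [hf]
    rw [← this]
    congr 1
    funext t
    congr 1
    simp only [hu]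
    push_cast
    rw [mul_add, Complex.exp_add, mul_assoc]
  have hrad : ∀ v w : ℂ, ‖v‖ = ‖w‖ → f v = f w := by
    have h1 : ∀ v : ℂ, f v = f (‖v‖ : ℝ) := by
      intro v
      rw [← hrot (Complex.arg v) (‖v‖ : ℝ)]
      congr 1
      simp only [hu]
      rw [mul_comm, mul_comm Complex.I]
      exact (Complex.norm_mul_exp_arg_mul_I v).symm
    intro v w h
    rw [h1 v, h1 w, h]
  have hfpsd : ∀ (ι : Type) [Fintype ι] (x : ι → ℂ) (w : ι → ℝ),
      0 ≤ ∑ i, ∑ j, w i * w j * (f (x i - x j) - 1 / k) := by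
    intro ι _ x w
    have hb2 : ∀ i j, Bd (fun θ => w i * w j * (φ (u θ * x i - u θ * x j) - 1 / k)) :=
      fun i j => ((hφB.comp _).sub (Bd.const _)).cmul _
    have e : ∀ i j, w i * w j * (f (x i - x j) - 1 / k) =
        M.M (fun θ => w i * w j * (φ (u θ * x i - u θ * x j) - 1 / k)) := by
      intro i j
      rw [M.smul _ _ ((hφB.comp _).sub (Bd.const _)), M.sub (hφB.comp _) (Bd.const _), M.const]
      simp only [hf, mul_sub]
    simp only [e]
    simp only [← M.sum _ (hb2 _)]
    rw [← M.sum _ (fun i => Bd.sum _ (hb2 i))]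
    exact M.nonneg _ (Bd.sum _ fun i => Bd.sum _ (hb2 i))
      fun θ => hφpsd ι (fun i => u θ * x i) w
  have hg0 : RPD (fun v => f v - 1 / k) :=
    ⟨fun v w h => by rw [hrad v w h], hfpsd, fun v => by
      rw [abs_le]
      constructor <;> linarith [hf0 v, hf1 v]⟩
  set L : ℝ := max (1 / k) (N.M f) with hL
  have hL0 : 1 / (k : ℝ) ≤ L := le_max_left _ _
  have hL1 : L ≤ 1 := max_le hk1 (N.le_const hfB hf1)
  have hg : RPD (fun v => f v - L) := by
    rcases le_total (N.M f) (1 / k) with h | h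
    · rw [hL, max_eq_left h]
      exact hg0
    · refine ⟨fun v w h => by rw [hrad v w h], ?_, fun v => by
        rw [abs_le]
        constructor <;> linarith [hf0 v, hf1 v]⟩
      intro ι _ x w
      rw [hL, max_eq_right h]
      have h1 : ∀ s : ℂ, ∑ i, ∑ j, w i * w j * f (s + (x i - x j)) ≤
          ∑ i, ∑ j, w i * w j * f (x i - x j) := by
        intro s
        have h2 := hg0.quad (fun i => x i + s) w x w 1 (-1)
        unfold E at h2
        simp only [add_sub_add_right_eq_sub, mul_sub, Finset.sum_sub_distrib] at h2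
        have e : ∑ i, ∑ j, w i * w j * f (x i + s - x j) =
            ∑ i, ∑ j, w i * w j * f (s + (x i - x j)) := by
          refine Finset.sum_congr rfl fun i _ => Finset.sum_congr rfl fun j _ => ?_
          congr 2
          ring
        rw [e] at h2
        linarith
      have hb : ∀ i j, Bd (fun s => w i * w j * f (s + (x i - x j))) :=
        fun i j => (hfB.comp _).cmul _
      have h2 := N.le_const (Bd.sum Finset.univ fun i => Bd.sum Finset.univ (hb i)) h1
      rw [N.sum _ (fun i => Bd.sum _ (hb i))] at h2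
      simp only [N.sum _ (hb _)] at h2
      have e : ∀ i j, N.M (fun s => w i * w j * f (s + (x i - x j))) = w i * w j * N.M f := by
        intro i j
        rw [N.smul _ _ (hfB.comp _), hN f _ hfB]
      simp only [e] at h2
      simp only [mul_sub, Finset.sum_sub_distrib]
      linarith
  have hmean : N.M (fun v => f v - L) ≤ 0 := by
    rw [N.sub hfB (Bd.const _), N.const]
    have : N.M f ≤ L := le_max_right _ _
    linarith
  filter_upwards [decay hg N hN hmean (ε := 1 / k / 2) (by positivity),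
    Filter.eventually_ge_atTop (0 : ℝ)] with r hr hr0
  by_contra hcon
  push Not at hcon
  have h1 : f r = 0 := by
    have e : (fun θ => φ (u θ * r)) = fun _ => 0 := by
      funext θ
      have e2 : (fun a => I (a + u θ * r) a) = fun _ => 0 := by
        funext a
        simp only [hI]
        rw [if_neg]
        apply hcon
        rw [add_sub_cancel_left, norm_mul, hu1, one_mul, Complex.norm_real, Real.norm_eq_abs,
          abs_of_nonneg hr0]
      simp only [hφ]
      rw [e2, N.const]
    simp only [hf]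
    rw [e, M.const]
  have h2 := (abs_le.1 hr).1
  rw [h1] at h2
  linarith

/-- every finite colouring of the Euclidean plane has monochromatic pairs at all large distances -/
theorem main_plane {k : ℕ} (c : EuclideanSpace ℝ (Fin 2) → Fin k) :
    ∀ᶠ r : ℝ in Filter.atTop, ∃ x y : EuclideanSpace ℝ (Fin 2), dist x y = r ∧ c x = c y := by
  let e : ℂ ≃ₗᵢ[ℝ] EuclideanSpace ℝ (Fin 2) := Complex.orthonormalBasisOneI.repr
  filter_upwards [main_complex (fun z => c (e z))] with r hr
  obtain ⟨x, y, h1, h2⟩ := hr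
  exact ⟨e x, e y, by rw [e.dist_map, dist_eq_norm, h1], h2⟩

end Pool.Agent.H719Z.FKW
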