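import Mathlib
import Pool.Agent.H719Z.FKW.UDecay

set_option autoImplicit false

namespace Pool.Agent.H719Z.FKW
open Filter Topology

/-- a set meeting every rotated translate of a fixed finite set realises all distances beyond a
bound that depends only on the finite set -/
theorem uniform_pair {ι : Type} [Fintype ι] (X : ι → ℂ) :
    ∀ᶠ D : ℝ in atTop, ∀ A : Set ℂ, (∀ (θ : ℝ) (a : ℂ), ∃ i, a + rot θ * X i ∈ A) →
      ∃ x ∈ A, ∃ y ∈ A, ‖x - y‖ = D := by
  classical
  rcases isEmpty_or_nonempty ι with hι | hι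
  · exact Eventually.of_forall fun D A h => by
      obtain ⟨i, -⟩ := h 0 0
      exact hι.elim i
  set n : ℝ := (Fintype.card ι : ℝ) with hn
  have hn0 : 0 < n := by
    rw [hn]
    exact_mod_cast Fintype.card_pos
  set c : ℝ := 1 / n * (1 / n) with hc
  have hc0 : 0 < c := by positivity
  set s0 : ℝ := ∑ i, ‖X i‖ with hs0
  have hs00 : 0 ≤ s0 := Finset.sum_nonneg fun i _ => norm_nonneg _
  have hX : ∀ i, ‖X i‖ ≤ s0 := fun i =>
    Finset.single_le_sum (f := fun i => ‖X i‖) (fun i _ => norm_nonneg _) (Finset.mem_univ i)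
  obtain ⟨δ, hδ, hdec⟩ := decay_pla (ε := c / 2) (by positivity)
  obtain ⟨J, hJ⟩ := exists_nat_gt (2 / δ)
  have hJ0 : (0 : ℝ) < J := lt_trans (by positivity) hJ
  have hJ1 : 2 / (J : ℝ) ≤ δ := by
    rw [div_lt_iff₀ hδ] at hJ
    rw [div_le_iff₀ hJ0]
    linarith
  obtain ⟨M, hM⟩ := exists_inv_mean ℝ
  obtain ⟨N, hN⟩ := exists_inv_mean ℂ
  filter_upwards [hdec (2 ^ J * s0) (by positivity), eventually_ge_atTop (0 : ℝ)]
    with D hD hD0 A hA
  by_contra hcon
  push Not at hcon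
  set I : ℂ → ℝ := fun a => if a ∈ A then 1 else 0 with hI
  have hI0 : ∀ a, 0 ≤ I a := fun a => by simp only [hI]; split_ifs <;> norm_num
  have hI1 : ∀ a, I a ≤ 1 := fun a => by simp only [hI]; split_ifs <;> norm_num
  have hIb : ∀ a b, |I a * I b| ≤ 1 := fun a b => by
    rw [abs_of_nonneg (mul_nonneg (hI0 a) (hI0 b))]
    exact mul_le_one₀ (hI1 a) (hI0 b) (hI1 b)
  set φ : ℂ → ℝ := fun v => N.M (fun a => I (a + v) * I a) with hφ
  have hφ0 : ∀ v, 0 ≤ φ v := fun v =>
    N.nonneg _ ⟨1, fun a => hIb _ _⟩ fun a => mul_nonneg (hI0 _) (hI0 _)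
  have hφb : ∀ v, |φ v| ≤ 1 := fun v => N.abs_le fun a => hIb _ _
  have hφB : Bd φ := ⟨1, hφb⟩
  have hφe : ∀ x y : ℂ, φ (x - y) = N.M (fun a => I (a + x) * I (a + y)) := by
    intro x y
    have := hN (fun a => I (a + (x - y)) * I a) y ⟨1, fun a => hIb _ _⟩
    simp only [hφ]
    rw [← this]
    congr 1
    funext a
    congr 2
    ring
  have hφsum : ∀ (ι κ : Type) [Fintype ι] [Fintype κ] (x : ι → ℂ) (w : ι → ℝ) (y : κ → ℂ)
      (v : κ → ℝ), ∑ i, ∑ j, w i * v j * φ (x i - y j) =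
      N.M (fun a => (∑ i, w i * I (a + x i)) * ∑ j, v j * I (a + y j)) := by
    intro ι κ _ _ x w y v
    have hb : ∀ i j, Bd (fun a => I (a + x i) * I (a + y j)) := fun i j => ⟨1, fun a => hIb _ _⟩
    have hb2 : ∀ i j, Bd (fun a => w i * v j * (I (a + x i) * I (a + y j))) :=
      fun i j => (hb i j).cmul _
    simp only [hφe, ← N.smul _ _ (hb _ _)]
    simp only [← N.sum _ (hb2 _)]
    rw [← N.sum _ (fun i => Bd.sum _ (hb2 i))]
    congr 1
    funext a
    rw [Finset.sum_mul_sum]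
    refine Finset.sum_congr rfl fun i _ => Finset.sum_congr rfl fun j _ => by ring
  have hIB : Bd I := ⟨1, fun a => by rw [abs_of_nonneg (hI0 a)]; exact hI1 a⟩
  have hSB : ∀ (ι : Type) [Fintype ι] (x : ι → ℂ) (w : ι → ℝ),
      Bd (fun a => ∑ i, w i * I (a + x i)) := fun ι _ x w =>
    Bd.sum _ fun i => (hIB.comp _).cmul _
  set f : ℂ → ℝ := fun v => M.M (fun θ => φ (rot θ * v)) with hf
  have hf0 : ∀ v, 0 ≤ f v := fun v => M.nonneg _ (hφB.comp _) fun θ => hφ0 _
  have hfb : ∀ v, |f v| ≤ 1 := fun v => M.abs_le fun θ => hφb _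
  have hfsum : ∀ (ι κ : Type) [Fintype ι] [Fintype κ] (x : ι → ℂ) (w : ι → ℝ) (y : κ → ℂ)
      (v : κ → ℝ), ∑ i, ∑ j, w i * v j * f (x i - y j) =
      M.M (fun θ => ∑ i, ∑ j, w i * v j * φ (rot θ * x i - rot θ * y j)) := by
    intro ι κ _ _ x w y v
    rw [M.sum _ (fun i => Bd.sum _ fun j => (hφB.comp _).cmul _)]
    refine Finset.sum_congr rfl fun i _ => ?_
    rw [M.sum _ (fun j => (hφB.comp _).cmul _)]
    refine Finset.sum_congr rfl fun j _ => ?_
    rw [M.smul _ _ (hφB.comp _)]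
    simp only [hf, mul_sub]
  have hfR : RPD f := by
    refine ⟨rad_of_rot fun θ v => ?_, fun ι _ x w => ?_, hfb⟩
    · have := hM (fun θ => φ (rot θ * v)) θ (hφB.comp _)
      simp only [hf]
      rw [← this]
      congr 1
      funext t
      rw [rot_add, mul_assoc]
    · rw [hfsum]
      apply M.nonneg _ (Bd.sum _ fun i => Bd.sum _ fun j => (hφB.comp _).cmul _)
      intro θ
      rw [hφsum]
      exact N.nonneg _ ((hSB _ _ _).mul (hSB _ _ _)) fun a => mul_self_nonneg _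
  have hgood : Good f c X (fun _ => 1 / n) := by
    intro v θ
    have e : ∑ p, ∑ q, 1 / n * (1 / n) * f (v + rot θ * (X p - X q)) =
        ∑ p, ∑ q, 1 / n * (1 / n) * f ((v + rot θ * X p) - rot θ * X q) := by
      refine Finset.sum_congr rfl fun p _ => Finset.sum_congr rfl fun q _ => ?_
      congr 2
      ring
    rw [e, hfsum ι ι (fun p => v + rot θ * X p) (fun _ => 1 / n) (fun q => rot θ * X q)
      (fun _ => 1 / n)]
    apply M.const_le (Bd.sum _ fun i => Bd.sum _ fun j => (hφB.comp _).cmul _)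
    intro t
    rw [hφsum ι ι (fun p => rot t * (v + rot θ * X p)) (fun _ => 1 / n)
      (fun q => rot t * (rot θ * X q)) (fun _ => 1 / n)]
    apply N.const_le ((hSB _ _ _).mul (hSB _ _ _))
    intro a
    have key : ∀ b : ℂ, 1 / n ≤ ∑ i, 1 / n * I (b + rot (t + θ) * X i) := by
      intro b
      obtain ⟨i, hi⟩ := hA (t + θ) b
      have h1 := Finset.single_le_sum (f := fun i => 1 / n * I (b + rot (t + θ) * X i))
        (fun i _ => mul_nonneg (by positivity) (hI0 _)) (Finset.mem_univ i)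
      have h2 : I (b + rot (t + θ) * X i) = 1 := by simp only [hI, if_pos hi]
      simp only [h2, mul_one] at h1
      exact h1
    have h1 := key (a + rot t * v)
    have h2 := key a
    have e1 : ∀ i, a + rot t * v + rot (t + θ) * X i = a + rot t * (v + rot θ * X i) := by
      intro i
      rw [rot_add]
      ring
    have e2 : ∀ i, a + rot (t + θ) * X i = a + rot t * (rot θ * X i) := by
      intro i
      rw [rot_add]
      ring
    simp only [e1] at h1
    simp only [e2] at h2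
    exact mul_le_mul h1 h2 (by positivity) (le_trans (by positivity) h1)
  obtain ⟨fl, h1, h2, h3⟩ := split hfR hf0 hs00 X (fun _ => 1 / n) (fun _ => by positivity)
    (by simp [hn]) hX hgood J (by exact_mod_cast hJ0)
  have h4 := hD _ h1 (by
    obtain ⟨κ, _, x, w, a1, a2, a3, a4⟩ := h3
    exact ⟨κ, inferInstance, x, w, a1, a2, a3, a4.trans hJ1⟩)
  have h5 : f D = 0 := by
    have e : (fun θ => φ (rot θ * D)) = fun _ => 0 := by
      funext θ
      have e2 : (fun a => I (a + rot θ * D) * I a) = fun _ => 0 := by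
        funext a
        simp only [hI]
        split_ifs with b1 b2
        · refine (hcon _ b1 _ b2 ?_).elim
          rw [add_sub_cancel_left, norm_mul, rot_norm, one_mul, Complex.norm_real,
            Real.norm_eq_abs, abs_of_nonneg hD0]
        all_goals simp
      simp only [hφ]
      rw [e2, N.const]
    simp only [hf]
    rw [e, M.const]
  have h6 := (abs_le.1 h4).1
  have h7 := h2 D
  simp only [h5] at h6
  linarith

/-- compactness: a colouring obstruction lives on a finite set -/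
theorem finite_obstruction {m : ℕ} (d : Fin m → ℝ)
    (h : ∀ T : ℂ → Fin m, ∃ j x y, ‖x - y‖ = d j ∧ T x = j ∧ T y = j) :
    ∃ X : Finset ℂ, ∀ T : ℂ → Fin m, ∃ j, ∃ x ∈ X, ∃ y ∈ X, ‖x - y‖ = d j ∧ T x = j ∧ T y = j := by
  classical
  let _ : TopologicalSpace (Fin m) := ⊥
  have : DiscreteTopology (Fin m) := ⟨rfl⟩
  set U : ℂ × ℂ → Set (ℂ → Fin m) := fun p =>
    {T | ∃ j, ‖p.1 - p.2‖ = d j ∧ T p.1 = j ∧ T p.2 = j} with hU
  have hopen : ∀ p, IsOpen (U p) := by
    intro p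
    have : U p = (fun T : ℂ → Fin m => (T p.1, T p.2)) ⁻¹'
        {q | ∃ j, ‖p.1 - p.2‖ = d j ∧ q.1 = j ∧ q.2 = j} := rfl
    rw [this]
    exact (isOpen_discrete _).preimage (by fun_prop)
  obtain ⟨t, ht⟩ := isCompact_univ.elim_finite_subcover U hopen (fun T _ => by
    obtain ⟨j, x, y, h1⟩ := h T
    exact Set.mem_iUnion.2 ⟨(x, y), j, h1⟩)
  refine ⟨t.image Prod.fst ∪ t.image Prod.snd, fun T => ?_⟩
  obtain ⟨p, hp, j, h1⟩ := Set.mem_iUnion₂.1 (ht (Set.mem_univ T))
  exact ⟨j, p.1, Finset.mem_union_left _ (Finset.mem_image_of_mem _ hp), p.2,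
    Finset.mem_union_right _ (Finset.mem_image_of_mem _ hp), h1⟩

/-- for every number of colours there are distances that cannot be avoided -/
theorem not_colourable (m : ℕ) : ∃ d : Fin m → ℝ, (∀ j, 0 < d j) ∧
    ∀ T : ℂ → Fin m, ∃ j x y, ‖x - y‖ = d j ∧ T x = j ∧ T y = j := by
  induction m with
  | zero => exact ⟨fun j => j.elim0, fun j => j.elim0, fun T => (T 0).elim0⟩
  | succ m ih =>
    obtain ⟨d, hd, h⟩ := ih
    rcases Nat.eq_zero_or_pos m with rfl | hm
    · refine ⟨fun _ => 1, fun _ => one_pos, fun T => ⟨0, 1, 0, by simp, ?_, ?_⟩⟩ <;>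
        exact Subsingleton.elim (α := Fin 1) _ _
    obtain ⟨X, hX⟩ := finite_obstruction d h
    obtain ⟨D, hD, hD0⟩ :=
      ((uniform_pair (fun x : X => (x : ℂ))).and (eventually_gt_atTop (0 : ℝ))).exists
    refine ⟨Fin.cons D d, fun j => Fin.cases hD0 hd j, fun T => ?_⟩
    by_cases hA : ∀ (θ : ℝ) (a : ℂ), ∃ i : X, a + rot θ * (i : ℂ) ∈ {z | T z = 0}
    · obtain ⟨x, hx, y, hy, hxy⟩ := hD _ hA
      exact ⟨0, x, y, hxy, hx, hy⟩
    · push Not at hA
      obtain ⟨θ, a, hA⟩ := hA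
      obtain ⟨j, x, hx, y, hy, h1, h2, h3⟩ := hX (fun z =>
        if hz : T (a + rot θ * z) = 0 then ⟨0, hm⟩ else (T (a + rot θ * z)).pred hz)
      have hx' : T (a + rot θ * x) ≠ 0 := hA ⟨x, hx⟩
      have hy' : T (a + rot θ * y) ≠ 0 := hA ⟨y, hy⟩
      rw [dif_neg hx'] at h2
      rw [dif_neg hy'] at h3
      refine ⟨j.succ, a + rot θ * x, a + rot θ * y, ?_, ?_, ?_⟩
      · rw [add_sub_add_left_eq_sub, ← mul_sub, norm_mul, rot_norm, one_mul, h1]
        rfl
      · rw [← h2, Fin.succ_pred]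
      · rw [← h3, Fin.succ_pred]

end Pool.Agent.H719Z.FKW
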